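import Pool.Agent.Lib.MP_1a91b9_nuX.LF.EulN
import Pool.Agent.Lib.MP_1a91b9_nt.LocDep

/-!
# The number of points of the reduction
-/

set_option autoImplicit false

namespace Pool.Agent.Lib.MP_1a91b9_nuX.LF

open NumberField IsDedekindDomain Polynomial WeierstrassCurve Pool.Agent.Lib.MP_1a91b9_nt
  Pool.Agent.Lib.MP_1a91b9_nuT
open Pool.Agent.Lib.MP_1a91b9_nuX.AN (psC psbC)

universe u

variable [CD]

/-- the local polynomial at a place which does not divide `bad` -/
theorem locPoly_crv {N : Type*} [Field N] [NumberField N] (v : HeightOneSpectrum (𝓞 N))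
    (h : ((CD.bad : ℤ) : 𝓞 N) ∉ v.asIdeal) :
    locPoly (E N) v = 1 - Polynomial.C ((nrm v : ℤ) + 1 - Nat.card (crv
      (cA (IsLocalRing.ResidueField (v.adicCompletionIntegers N)))
      (cB (IsLocalRing.ResidueField (v.adicCompletionIntegers N)))).toAffine.Point) * X
      + Polynomial.C (nrm v : ℤ) * X ^ 2 := by
  have hmodel : locPoly ((E N).baseChange N) v = _ :=
      locPoly_of_model (F := N) (K := N) (E N) 1
        (crv ((CD.A : ℤ) : 𝓞 N) ((CD.B : ℤ) : 𝓞 N)) (by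
        rw [one_smul, crv_map, map_intCast, map_intCast]
        rfl) v (by
        rw [crv_Δ]
        intro hmem
        apply h
        change algebraMap (𝓞 N) (𝓞 N) (-(16 * (4 * ((CD.A : ℤ) : 𝓞 N) ^ 3 +
          27 * ((CD.B : ℤ) : 𝓞 N) ^ 2))) ∈ v.asIdeal at hmem
        rw [Algebra.algebraMap_self, RingHom.id_apply] at hmem
        obtain ⟨c, hc⟩ := CD.bad_dvd
        refine v.isPrime.mem_of_pow_mem 4 ?_
        have e : ((CD.bad : ℤ) : 𝓞 N) ^ 4 = -(81 * (4 * ((CD.A : ℤ) : 𝓞 N) ^ 3 +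
            27 * ((CD.B : ℤ) : 𝓞 N) ^ 2) ^ 3 *
            ((CD.nm * (CD.tr ^ 2 - 4 * CD.nm) * c : ℤ) : 𝓞 N) ^ 4) *
            -(16 * (4 * ((CD.A : ℤ) : 𝓞 N) ^ 3 + 27 * ((CD.B : ℤ) : 𝓞 N) ^ 2)) := by
          rw [hc]
          push_cast
          ring
        rw [e]
        exact v.asIdeal.mul_mem_left _ hmem)
  have hbc : (E N).baseChange N = E N := WeierstrassCurve.map_id _
  rw [hbc, crv_map, map_intCast, map_intCast] at hmodel
  exact hmodel

variable [HC] {F : Type u} [Field F] [NumberField F] [Algebra K F]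

theorem f_not_mem {q : HeightOneSpectrum (𝓞 F)} (h : ((CD.bad : ℤ) : 𝓞 F) ∉ q.asIdeal) :
    HC.f ∉ (q.under (𝓞 K)).asIdeal := by
  intro hf
  have h1 : algebraMap (𝓞 K) (𝓞 F) ((CD.bad : ℤ) : 𝓞 K) ∈ q.asIdeal := HC.hd.good _ hf
  rw [map_intCast] at h1
  exact h h1

/-- the number of points of the reduction -/
theorem psi_prod (q : HeightOneSpectrum (𝓞 F)) (h : ((CD.bad : ℤ) : 𝓞 F) ∉ q.asIdeal) :
    (1 - psC F q.asIdeal) * (1 - psbC F q.asIdeal) =
      ((Nat.card (crv (cA (IsLocalRing.ResidueField (q.adicCompletionIntegers F)))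
        (cB (IsLocalRing.ResidueField (q.adicCompletionIntegers F)))).toAffine.Point : ℕ) : ℂ) := by
  have h1 := loc_f (f_not_mem h) (E F) 1 (one_smul _ _) 1
  rw [mul_one, mul_one, locPoly_crv q h] at h1
  rw [← h1]
  simp only [map_add, map_sub, map_one, map_mul, aeval_X, map_pow, map_natCast]
  ring

end Pool.Agent.Lib.MP_1a91b9_nuX.LF
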