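import Pool.Agent.Lib.MP_1a91b9_nuX.LF.Ser
import Pool.Agent.Lib.MP_1a91b9_nuX.LF.Cnt
import Pool.Agent.Lib.MP_1a91b9_nuX.AN.Alg
import Pool.Agent.Lib.MP_1a91b9_nuT.TW.Loc

/-!
# The curves which are isomorphic over `N` to `E` or to its twist
-/

set_option autoImplicit false

namespace Pool.Agent.Lib.MP_1a91b9_nuX.LF

open NumberField IsDedekindDomain WeierstrassCurve Pool.Agent.Lib.MP_1a91b9_nt
  Pool.Agent.Lib.MP_1a91b9_nuT
open Pool.Agent.Lib.MP_1a91b9_nuX.AN (psC psbC LGood)

universe u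

private theorem Main_finite_iso [CD] {N M : Type*} [Field N] [Field M] [Algebra N M]
    (W : WeierstrassCurve N) (C : VariableChange M) (hC : C • (W.baseChange M) = E M)
    (h : Finite (E M).toAffine.Point) : Finite W.toAffine.Point := by
  rw [← hC] at h
  have h3 : Finite (W.map (algebraMap N M)).toAffine.Point :=
    Finite.of_surjective _ (vcFun_bijective (W.baseChange M) C).2
  exact Finite.of_injective _ (TW.locMap_injective (algebraMap N M) W)

variable [CD] [HC]

/-- The conclusion over a field containing `K`. -/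
theorem concl_K {F : Type u} [Field F] [NumberField F] [Algebra K F] (h : Nice F)
    (hg : LGood F) (hf : Finite (E F).toAffine.Point)
    (W : WeierstrassCurve F) (D : VariableChange F) (hD : D • W = E F) :
    (∃ g : ℂ → ℂ, Differentiable ℂ g ∧ (∀ s : ℂ, 3 / 2 < s.re → g s = W.LSeries s) ∧ g 1 ≠ 0) ∧
      Finite W.toAffine.Point := by
  obtain ⟨L, hL, hL2, hne⟩ := hg
  have hL1 := half_Lf hL hL2
  refine ⟨⟨fun s => (starRingEnd ℂ) (L ((starRingEnd ℂ) s)) * L s,
    (S4.differentiable_conj_conj hL).mul hL, fun s hs => ?_, ?_⟩, ?_⟩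
  · change (starRingEnd ℂ) (L ((starRingEnd ℂ) s)) * L s = _
    rw [LSeries_K h W D hD s hs, hL1 s hs, hL1 _ (by rw [Complex.conj_re]; exact hs), ← Lf_conj]
  · change (starRingEnd ℂ) (L ((starRingEnd ℂ) 1)) * L 1 ≠ 0
    rw [map_one]
    exact mul_ne_zero ((map_ne_zero _).mpr hne) hne
  · rw [← hD] at hf
    exact Finite.of_surjective _ (vcFun_bijective W D).2

/-- The conclusion over a field `N` which does not contain `K`, `F = N K`. -/
theorem concl_N {N F : Type u} [Field N] [NumberField N] [Field F] [NumberField F]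
    [Algebra N F] [Algebra K F] (hL : Module.finrank N F = 2)
    (hn : ∀ x : N, algebraMap N F x ≠ algebraMap K F om) (h : Nice F)
    (hg : LGood F) (hf : Finite (E F).toAffine.Point) (W : WeierstrassCurve N)
    (hW : (∃ C : VariableChange N, C • W = crv (cA N) (cB N)) ∨
      ∃ C : VariableChange N, C • W = crv ((tA : ℤ) : N) ((tB : ℤ) : N)) :
    (∃ g : ℂ → ℂ, Differentiable ℂ g ∧ (∀ s : ℂ, 3 / 2 < s.re → g s = W.LSeries s) ∧ g 1 ≠ 0) ∧
      Finite W.toAffine.Point := by
  obtain ⟨L, hLd, hL2, hne⟩ := hg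
  have hL1 := half_Lf hLd hL2
  obtain ⟨D, hD⟩ := IsCl.up (F := F) hW
  refine ⟨⟨L, hLd, fun s hs => ?_, hne⟩, Main_finite_iso W D hD hf⟩
  rw [hL1 s hs, LSeries_N hL hn h W hW s hs]

/-- What is needed about the field `N`. -/
def Dat (N : Type u) [Field N] [NumberField N] : Prop :=
  (∃ _ : Algebra K N, Nice N ∧ LGood N ∧ Finite (E N).toAffine.Point) ∨
  ∃ (F : Type u) (_ : Field F) (_ : NumberField F) (_ : Algebra N F) (_ : Algebra K F),
    Module.finrank N F = 2 ∧ (∀ x : N, algebraMap N F x ≠ algebraMap K F om) ∧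
      Nice F ∧ LGood F ∧ Finite (E F).toAffine.Point

/-- The theorem for the curves over `N` which are isomorphic over `N` to `E` or to its twist. -/
theorem twist_of {N : Type u} [Field N] [NumberField N] (hdat : Dat N) (W : WeierstrassCurve N)
    (hW : (∃ C : VariableChange N, C • W = crv (cA N) (cB N)) ∨
      ∃ C : VariableChange N, C • W = crv ((tA : ℤ) : N) ((tB : ℤ) : N)) :
    (∃ g : ℂ → ℂ, Differentiable ℂ g ∧ (∀ s : ℂ, 3 / 2 < s.re → g s = W.LSeries s) ∧ g 1 ≠ 0) ∧
      Finite W.toAffine.Point := by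
  rcases hdat with ⟨_, hN, hg, hf⟩ | ⟨F, _, _, _, _, hL, hn, hN, hg, hf⟩
  · rcases hW with ⟨D, hD⟩ | ⟨D, hD⟩
    · exact concl_K hN hg hf W D hD
    · obtain ⟨C', hC'⟩ := crv_tw N
      exact concl_K hN hg hf W (C' * D) (by rw [mul_smul, hD]; exact hC')
  · exact concl_N hL hn hN hg hf W hW

end Pool.Agent.Lib.MP_1a91b9_nuX.LF
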