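import Pool.Agent.Lib.MP_1a91b9_nuX.LF.Defs
import Pool.Agent.Lib.MP_1a91b9_nuX.RG.Per
import Pool.Agent.Lib.MP_1a91b9_nuT.DW.Alg
import Pool.Agent.Lib.MP_1a91b9_nuT.TW.Core
import Pool.Agent.Lib.MP_1a91b9_nt.TwistRank

/-!
# The curves which become isomorphic to the curve of `CD` over an extension of degree prime to `ww`

`class_w`: such a curve is isomorphic to `y² = x³ + A x + B` or to `y² = x³ + tA x + tB`.

PROOF. `W` is isomorphic to `crv a b` over `N` (`exists_short`); over `L` there is a variable change to `crv A B`, with `s = r = t = 0`, so `a = u ^ 4 A`, `b = u ^ 6 B`, `u ∈ L`.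
If `A B ≠ 0`: `e = (b / a) (A / B) = u ^ 2`. If `A = 0`: `b / B = (u²)³` is a cube `e ^ 3` of `N` (the degree is prime to three), and `x = (e / u²)² u` has `x² = e`. In both cases `a = e² A`, `b = e³ B`, `e` a square in an extension of odd
degree of `N K`, so `e` is a square or `dK` times a square in `N`. If `B = 0`: `a / A = u ^ 4`, and `u ^ 2`, `u` are in `N(i)` (odd degree); `u = p + q i` with `u ^ 4 ∈ N`: `p = 0`, `q = 0` or `p = ± q`.
-/

set_option autoImplicit false

namespace Pool.Agent.Lib.MP_1a91b9_nuX.LF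

open NumberField IsDedekindDomain WeierstrassCurve Pool.Agent.Lib.MP_1a91b9_nt
  Pool.Agent.Lib.MP_1a91b9_nuT Pool.Agent.Lib.MP_1a91b9_nuT.TW Pool.Agent.Lib.MP_1a91b9_nuT.DW

universe u

/-- a variable change between two short Weierstrass equations -/
theorem short_change {L : Type*} [Field L] [CharZero L] {a b a' b' : L}
    {C : WeierstrassCurve.VariableChange L} (h : C • crv a b = crv a' b') :
    ∃ u : L, u ≠ 0 ∧ a = u ^ 4 * a' ∧ b = u ^ 6 * b' := by
  have hu : (C.u : L) ≠ 0 := C.u.ne_zero
  have hui : ((C.u⁻¹ : Lˣ) : L) = (C.u : L)⁻¹ := by simp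
  have e1 := congrArg WeierstrassCurve.a₁ h
  rw [WeierstrassCurve.variableChange_a₁, hui] at e1
  simp only [crv] at e1
  have hs : C.s = 0 := by
    have h1 : (C.u : L)⁻¹ * (0 + 2 * C.s) = 0 := e1
    rcases mul_eq_zero.1 h1 with h | h
    · exact absurd h (inv_ne_zero hu)
    · have h2 : (2 : L) * C.s = 0 := by linear_combination h
      rcases mul_eq_zero.1 h2 with h | h
      · exact absurd h two_ne_zero
      · exact h
  have e2 := congrArg WeierstrassCurve.a₂ h
  rw [WeierstrassCurve.variableChange_a₂, hui, hs] at e2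
  simp only [crv] at e2
  have hr : C.r = 0 := by
    rcases mul_eq_zero.1 e2 with h | h
    · exact absurd h (pow_ne_zero 2 (inv_ne_zero hu))
    · have h2 : (3 : L) * C.r = 0 := by linear_combination h
      rcases mul_eq_zero.1 h2 with h | h
      · norm_num at h
      · exact h
  have e3 := congrArg WeierstrassCurve.a₃ h
  rw [WeierstrassCurve.variableChange_a₃, hui, hr] at e3
  simp only [crv] at e3
  have ht : C.t = 0 := by
    rcases mul_eq_zero.1 e3 with h | h
    · exact absurd h (pow_ne_zero 3 (inv_ne_zero hu))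
    · have h2 : (2 : L) * C.t = 0 := by linear_combination h
      rcases mul_eq_zero.1 h2 with h | h
      · exact absurd h two_ne_zero
      · exact h
  have e4 := congrArg WeierstrassCurve.a₄ h
  rw [WeierstrassCurve.variableChange_a₄, hui, hr, hs, ht] at e4
  simp only [crv] at e4
  have e6 := congrArg WeierstrassCurve.a₆ h
  rw [WeierstrassCurve.variableChange_a₆, hui, hr, ht] at e6
  simp only [crv] at e6
  refine ⟨(C.u : L), hu, ?_, ?_⟩
  · have h1 : (C.u : L)⁻¹ ^ 4 * a = a' := by linear_combination e4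
    rw [← h1, ← mul_assoc, ← mul_pow, mul_inv_cancel₀ hu, one_pow, one_mul]
  · have h1 : (C.u : L)⁻¹ ^ 6 * b = b' := by linear_combination e6
    rw [← h1, ← mul_assoc, ← mul_pow, mul_inv_cancel₀ hu, one_pow, one_mul]

/-- a short equation over the small field -/
theorem exists_shortC {N L : Type*} [Field N] [CharZero N] [Field L] [CharZero L] [Algebra N L]
    (W : WeierstrassCurve N) {a' b' : L} (C : WeierstrassCurve.VariableChange L)
    (hC : C • (W.baseChange L) = crv a' b') :
    ∃ (a b : N) (u : L) (D : WeierstrassCurve.VariableChange N), D • W = crv a b ∧ u ≠ 0 ∧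
      algebraMap N L a = u ^ 4 * a' ∧ algebraMap N L b = u ^ 6 * b' := by
  obtain ⟨D, hD⟩ := exists_short W
  have hD' : D • W = crv (-W.c₄ / 48) (-W.c₆ / 864) := hD
  have hDL : (D.map (algebraMap N L)) • (W.baseChange L) =
      crv (algebraMap N L (-W.c₄ / 48)) (algebraMap N L (-W.c₆ / 864)) := by
    have h1 : (D.map (algebraMap N L)) • (W.baseChange L) = (D • W).map (algebraMap N L) :=
      (WeierstrassCurve.map_variableChange _ _ _)
    rw [h1, hD', crv_map]
  obtain ⟨C₂, hC₂⟩ : ∃ C₂ : WeierstrassCurve.VariableChange L,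
      C₂ • crv (algebraMap N L (-W.c₄ / 48)) (algebraMap N L (-W.c₆ / 864)) = crv a' b' := by
    refine ⟨C * (D.map (algebraMap N L))⁻¹, ?_⟩
    rw [← hDL, mul_smul, inv_smul_smul, hC]
  obtain ⟨u, hu, h4, h6⟩ := short_change hC₂
  exact ⟨_, _, u, D, hD', hu, h4, h6⟩

variable [CD]

/-- the degree over a quadratic extension which contains `K` is odd -/
private theorem odd_quad {N M : Type u} [Field N] [NumberField N] [Field M] [NumberField M]
    [Algebra N M] [Algebra K M] {D : ℤ} (y : M) (hy : y ^ 2 = (D : M))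
    (hK : ∀ k : K, algebraMap K M k ∈ quadIF N M y hy) (h2 : ¬ 2 ∣ Module.finrank K M) :
    ¬ 2 ∣ Module.finrank (quadIF N M y hy) M := by
  set F := quadIF N M y hy with hF
  obtain ⟨φ, hφ⟩ : ∃ φ : K →+* F, ∀ t : K, ((φ t : F) : M) = algebraMap K M t :=
    ⟨(algebraMap K M).codRestrict F.toSubalgebra.toSubring hK, fun t => rfl⟩
  let algKF : Algebra K F := φ.toAlgebra
  have ht : IsScalarTower K F M := IsScalarTower.of_algebraMap_eq fun t => (hφ t).symm
  intro h
  apply h2
  rw [← Module.finrank_mul_finrank K F M]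
  exact Dvd.dvd.mul_left h _

private theorem rat_mem {N M : Type u} [Field N] [NumberField N] [Field M] [NumberField M]
    [Algebra N M] [Algebra K M] (F : IntermediateField N M) (a : ℚ) :
    algebraMap K M ((a : ℚ) : K) ∈ F := by
  rw [map_ratCast]
  have e : ((a : ℚ) : M) = algebraMap N M (a : N) := (map_ratCast _ _).symm
  rw [e]
  exact F.algebraMap_mem _

/-- an element which is a square in an extension of odd degree -/
private theorem sq_part {N M : Type u} [Field N] [NumberField N] [Field M] [NumberField M]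
    [Algebra N M] [Algebra K M] (h2 : ¬ 2 ∣ Module.finrank K M) (e : N) (x : M)
    (hx : x ^ 2 = algebraMap N M e) : (∃ y : N, e = y ^ 2) ∨ ∃ y : N, e = dK * y ^ 2 := by
  set z : M := 2 * algebraMap K M om - (CD.tr : M) with hzdef
  have hz : z ^ 2 = (dK : M) := om_of_sqrt _ rfl
  have homF : algebraMap K M om ∈ quadIF N M z hz := by
    refine (mem_quadIF z hz _).2 ⟨(CD.tr : N) / 2, 1 / 2, ?_⟩
    rw [map_div₀, map_div₀, map_intCast, map_one, map_ofNat, hzdef]
    ring
  have hK : ∀ k : K, algebraMap K M k ∈ quadIF N M z hz := by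
    intro t
    obtain ⟨a, b, rfl⟩ := exists_rat_coords t
    rw [map_add, map_mul]
    exact (quadIF N M z hz).add_mem (rat_mem _ a)
      ((quadIF N M z hz).mul_mem (rat_mem _ b) homF)
  have hdeg := odd_quad z hz hK h2
  obtain ⟨y, hy⟩ := exists_sq_odd (N := quadIF N M z hz) (L := M) hdeg
    (algebraMap N (quadIF N M z hz) e) x hx
  have hy2 : y ^ 2 = algebraMap N (quadIF N M z hz) e := by
    apply (algebraMap (quadIF N M z hz) M).injective
    rw [map_pow, hy, hx]
    rfl
  by_cases hzN : ∃ t : N, algebraMap N M t = z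
  · left
    obtain ⟨t, ht⟩ := hzN
    obtain ⟨a, b, hab⟩ := (mem_quadIF z hz _).1 y.2
    refine ⟨a + b * t, ?_⟩
    apply (algebraMap N M).injective
    rw [map_pow, map_add, map_mul, ht, ← hab, ← hx, ← hy]
    rfl
  · have hzF : z ∈ quadIF N M z hz := (mem_quadIF z hz _).2 ⟨0, 1, by simp⟩
    refine sq_cases (D := dK) (N := N) (F := quadIF N M z hz) ⟨z, hzF⟩ ?_ ?_ ?_ y e hy2
    · apply Subtype.ext
      exact hz
    · intro t ht
      exact hzN ⟨t, congrArg Subtype.val ht⟩
    · intro t
      obtain ⟨a, b, hab⟩ := (mem_quadIF z hz _).1 t.2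
      exact ⟨a, b, Subtype.ext hab⟩

/-- `K = ℚ(i)` if `K` contains `i` -/
private theorem om_i {i : K} (hi : i ^ 2 = -1) : ∃ a b : ℚ, om = (a : K) + (b : K) * i := by
  obtain ⟨a, b, h⟩ := exists_rat_coords i
  have hb : b ≠ 0 := by
    rintro rfl
    rw [Rat.cast_zero, zero_mul, add_zero] at h
    rw [h] at hi
    have h2 : (a ^ 2 : ℚ) = -1 := by exact_mod_cast hi
    nlinarith [sq_nonneg a]
  have hb' : (b : K) ≠ 0 := by exact_mod_cast hb
  refine ⟨-a / b, 1 / b, ?_⟩
  push_cast
  field_simp
  linear_combination -h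

/-- an element which is a fourth power in an extension of odd degree, `K = ℚ(i)` -/
private theorem four_part {N M : Type u} [Field N] [NumberField N] [Field M] [NumberField M]
    [Algebra N M] [Algebra K M] (h2 : ¬ 2 ∣ Module.finrank K M) {i : K} (hi : i ^ 2 = -1)
    (c : N) (u : M) (hu : u ^ 4 = algebraMap N M c) :
    (∃ y : N, c = y ^ 4) ∨ ∃ y : N, c = -4 * y ^ 4 := by
  obtain ⟨j, hj⟩ : ∃ j : M, j = algebraMap K M i := ⟨_, rfl⟩
  have hj2 : j ^ 2 = -1 := by rw [hj, ← map_pow, hi, map_neg, map_one]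
  have hjD : j ^ 2 = (((-1 : ℤ)) : M) := by rw [hj2]; push_cast; ring
  have hjF : j ∈ quadIF N M j hjD := (mem_quadIF j hjD _).2 ⟨0, 1, by simp⟩
  have homF : algebraMap K M om ∈ quadIF N M j hjD := by
    obtain ⟨a, b, h⟩ := om_i hi
    rw [h, map_add, map_mul, ← hj]
    exact (quadIF N M j hjD).add_mem (rat_mem _ a)
      ((quadIF N M j hjD).mul_mem (rat_mem _ b) hjF)
  have hK : ∀ k : K, algebraMap K M k ∈ quadIF N M j hjD := by
    intro t
    obtain ⟨a, b, rfl⟩ := exists_rat_coords t
    rw [map_add, map_mul]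
    exact (quadIF N M j hjD).add_mem (rat_mem _ a)
      ((quadIF N M j hjD).mul_mem (rat_mem _ b) homF)
  have hdeg := odd_quad j hjD hK h2
  obtain ⟨v, hv⟩ := exists_sq_odd (N := quadIF N M j hjD) (L := M) hdeg
    (algebraMap N (quadIF N M j hjD) c) (u ^ 2) (by
      rw [← pow_mul, hu]
      rfl)
  obtain ⟨w, hw⟩ := exists_sq_odd (N := quadIF N M j hjD) (L := M) hdeg v u hv.symm
  obtain ⟨p, q, hpq⟩ := (mem_quadIF j hjD _).1 w.2
  have hpq' : u = algebraMap N M p + algebraMap N M q * j := by
    rw [← hpq, ← hw]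
    rfl
  have key : algebraMap N M (c - (p ^ 4 - 6 * p ^ 2 * q ^ 2 + q ^ 4)) =
      algebraMap N M (4 * p * q * (p ^ 2 - q ^ 2)) * j := by
    have h1 : algebraMap N M c = (algebraMap N M p + algebraMap N M q * j) ^ 4 := by
      rw [← hpq', hu]
    simp only [map_sub, map_add, map_mul, map_pow, map_ofNat]
    rw [h1]
    linear_combination (6 * algebraMap N M p ^ 2 * algebraMap N M q ^ 2 +
      4 * algebraMap N M p * algebraMap N M q ^ 3 * j +
      algebraMap N M q ^ 4 * (j ^ 2 - 1)) * hj2
  by_cases hjN : ∃ t : N, algebraMap N M t = j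
  · left
    obtain ⟨t, ht⟩ := hjN
    refine ⟨p + q * t, ?_⟩
    apply (algebraMap N M).injective
    rw [map_pow, map_add, map_mul, ht, ← hpq', hu]
  · have h0 : 4 * p * q * (p ^ 2 - q ^ 2) = 0 := by
      by_contra h3
      apply hjN
      refine ⟨(c - (p ^ 4 - 6 * p ^ 2 * q ^ 2 + q ^ 4)) / (4 * p * q * (p ^ 2 - q ^ 2)), ?_⟩
      rw [map_div₀, key, mul_comm, mul_div_assoc, div_self, mul_one]
      rw [Ne, map_eq_zero]
      exact h3
    have hc : c = p ^ 4 - 6 * p ^ 2 * q ^ 2 + q ^ 4 := by
      rw [← sub_eq_zero]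
      apply (algebraMap N M).injective
      rw [key, h0, map_zero, zero_mul]
    rcases mul_eq_zero.1 h0 with h | h
    · rcases mul_eq_zero.1 h with h | h
      · have hp : p = 0 := by
          rcases mul_eq_zero.1 h with h | h
          · norm_num at h
          · exact h
        left
        refine ⟨q, ?_⟩
        rw [hc, hp]
        ring
      · left
        refine ⟨p, ?_⟩
        rw [hc, h]
        ring
    · right
      refine ⟨p, ?_⟩
      have h4 : q ^ 2 = p ^ 2 := (sub_eq_zero.1 h).symm
      rw [hc]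
      linear_combination (q ^ 2 - 5 * p ^ 2) * h4

/-- the last step if `B ≠ 0` -/
private theorem fin_part {N M : Type u} [Field N] [NumberField N] [Field M] [NumberField M]
    [Algebra N M] [Algebra K M] (h2 : ¬ 2 ∣ Module.finrank K M) (hB : CD.B ≠ 0)
    {W : WeierstrassCurve N} {a b e : N} (he : e ≠ 0) (ha : a = e ^ 2 * cA N)
    (hb : b = e ^ 3 * cB N) (D : WeierstrassCurve.VariableChange N) (hD : D • W = crv a b)
    (x : M) (hx : x ^ 2 = algebraMap N M e) :
    (∃ D : WeierstrassCurve.VariableChange N, D • W = crv (cA N) (cB N)) ∨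
      ∃ D : WeierstrassCurve.VariableChange N, D • W = crv ((tA : ℤ) : N) ((tB : ℤ) : N) := by
  rcases sq_part h2 e x hx with ⟨y, rfl⟩ | ⟨y, rfl⟩
  · left
    have hy0 : y ≠ 0 := by
      rintro rfl
      exact he (by rw [zero_pow two_ne_zero])
    obtain ⟨D', hD'⟩ := exists_scale (cA N) (cB N) y hy0
    refine ⟨D'⁻¹ * D, ?_⟩
    rw [mul_smul, hD, ha, hb, ← pow_mul, ← pow_mul, ← hD', inv_smul_smul]
  · right
    have hy0 : y ≠ 0 := by
      rintro rfl
      exact he (by rw [zero_pow two_ne_zero, mul_zero])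
    obtain ⟨D', hD'⟩ := exists_scale ((tA : ℤ) : N) ((tB : ℤ) : N) y hy0
    refine ⟨D'⁻¹ * D, ?_⟩
    have e1 : a = y ^ 4 * ((tA : ℤ) : N) := by
      rw [ha, tA, if_neg hB]
      change _ * ((CD.A : ℤ) : N) = _
      push_cast
      ring
    have e2 : b = y ^ 6 * ((tB : ℤ) : N) := by
      rw [hb, tB]
      change _ * ((CD.B : ℤ) : N) = _
      push_cast
      ring
    rw [mul_smul, hD, e1, e2, ← hD', inv_smul_smul]

/-- The curves which become isomorphic to the curve of `CD` in an extension of degree prime to `ww`. -/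
theorem class_w (N L M : Type u) [Field N] [NumberField N] [Field L] [NumberField L]
    [Field M] [NumberField M] [Algebra N L] [Algebra L M] [Algebra K M]
    (h : (Module.finrank K M).Coprime ww)
    (W : WeierstrassCurve N) (C : WeierstrassCurve.VariableChange L)
    (hC : C • (W.baseChange L) = E L) :
    (∃ D : WeierstrassCurve.VariableChange N, D • W = crv (cA N) (cB N)) ∨
      ∃ D : WeierstrassCurve.VariableChange N, D • W = crv ((tA : ℤ) : N) ((tB : ℤ) : N) := by
  let algNM : Algebra N M := ((algebraMap L M).comp (algebraMap N L)).toAlgebra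
  have htow : IsScalarTower N L M := IsScalarTower.of_algebraMap_eq' rfl
  have h2 : ¬ 2 ∣ Module.finrank K M := fun h3 =>
    absurd (Nat.eq_one_of_dvd_coprimes h h3 two_dvd_ww) (by norm_num)
  rw [E_eq_crv] at hC
  obtain ⟨a, b, u, D, hD, hu, ha, hb⟩ := exists_shortC W C hC
  have cAL : algebraMap N L (cA N) = cA L := map_intCast _ _
  have cBL : algebraMap N L (cB N) = cB L := map_intCast _ _
  by_cases hB : CD.B = 0
  · -- `B = 0`
    have hA : CD.A ≠ 0 := by
      intro hA
      apply CD.disc
      rw [hA, hB]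
      norm_num
    have hAN : cA N ≠ 0 := (Int.cast_ne_zero (α := N)).2 hA
    have hAL : cA L ≠ 0 := (Int.cast_ne_zero (α := L)).2 hA
    have hBL : cB L = 0 := by
      change ((CD.B : ℤ) : L) = 0
      rw [hB, Int.cast_zero]
    have hBN : cB N = 0 := by
      change ((CD.B : ℤ) : N) = 0
      rw [hB, Int.cast_zero]
    have hb0 : b = 0 := by
      apply (algebraMap N L).injective
      rw [hb, hBL, mul_zero, map_zero]
    obtain ⟨i, hi⟩ := RG.exists_I hB
    have hi2 : i ^ 2 = -1 := by
      have h3 : embK (i ^ 2) = embK (-1) := by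
        rw [map_pow, hi, Complex.I_sq, map_neg, map_one]
      exact embK.injective h3
    have hc : (algebraMap L M u) ^ 4 = algebraMap N M (a / cA N) := by
      have h3 : algebraMap N L (a / cA N) = u ^ 4 := by
        rw [map_div₀, ha, cAL, mul_div_assoc, div_self hAL, mul_one]
      rw [← map_pow, ← h3]
      rfl
    rcases four_part h2 hi2 (a / cA N) (algebraMap L M u) hc with ⟨y, hy⟩ | ⟨y, hy⟩
    · left
      have hy' : a = y ^ 4 * cA N := by
        rw [← hy, div_mul_cancel₀ _ hAN]
      have hy0 : y ≠ 0 := by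
        rintro rfl
        rw [zero_pow four_ne_zero, zero_mul] at hy'
        rw [hy', map_zero] at ha
        exact mul_ne_zero (pow_ne_zero 4 hu) hAL ha.symm
      obtain ⟨D', hD'⟩ := exists_scale (cA N) (cB N) y hy0
      refine ⟨D'⁻¹ * D, ?_⟩
      have e2 : b = y ^ 6 * cB N := by rw [hb0, hBN, mul_zero]
      rw [mul_smul, hD, hy', e2, ← hD', inv_smul_smul]
    · right
      have hy' : a = y ^ 4 * ((tA : ℤ) : N) := by
        rw [tA, if_pos hB]
        have e3 : a = a / cA N * cA N := (div_mul_cancel₀ _ hAN).symm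
        rw [e3, hy]
        change _ * ((CD.A : ℤ) : N) = _
        push_cast
        ring
      have hy0 : y ≠ 0 := by
        rintro rfl
        rw [zero_pow four_ne_zero, zero_mul] at hy'
        rw [hy', map_zero] at ha
        exact mul_ne_zero (pow_ne_zero 4 hu) hAL ha.symm
      obtain ⟨D', hD'⟩ := exists_scale ((tA : ℤ) : N) ((tB : ℤ) : N) y hy0
      refine ⟨D'⁻¹ * D, ?_⟩
      have e2 : b = y ^ 6 * ((tB : ℤ) : N) := by
        rw [hb0, tB, hB, zero_mul, Int.cast_zero, mul_zero]
      rw [mul_smul, hD, hy', e2, ← hD', inv_smul_smul]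
  · have hBN : cB N ≠ 0 := (Int.cast_ne_zero (α := N)).2 hB
    have hBL : cB L ≠ 0 := (Int.cast_ne_zero (α := L)).2 hB
    by_cases hA : CD.A = 0
    · -- `A = 0`
      have hAL : cA L = 0 := by
        change ((CD.A : ℤ) : L) = 0
        rw [hA, Int.cast_zero]
      have hAN : cA N = 0 := by
        change ((CD.A : ℤ) : N) = 0
        rw [hA, Int.cast_zero]
      have ha0 : a = 0 := by
        apply (algebraMap N L).injective
        rw [ha, hAL, mul_zero, map_zero]
      have h3 : ¬ 3 ∣ Module.finrank K M := by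
        intro h3
        refine absurd (Nat.eq_one_of_dvd_coprimes h h3 ?_) (by norm_num)
        rw [ww, if_pos hA]
        norm_num
      have h3L : ¬ 3 ∣ Module.finrank N L := by
        intro h
        have h4 : 3 ∣ Module.finrank ℚ M := by
          have h5 := Module.finrank_mul_finrank ℚ N L
          have h6 := Module.finrank_mul_finrank ℚ L M
          rw [← h6, ← h5]
          exact Dvd.dvd.mul_right (Dvd.dvd.mul_left h _) _
        rw [← Module.finrank_mul_finrank ℚ K M, finrank_K] at h4
        rcases (Nat.prime_three.dvd_mul).1 h4 with h7 | h7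
        · norm_num at h7
        · exact h3 h7
      have hbd : algebraMap N L (b / cB N) = u ^ 6 := by
        rw [map_div₀, hb, cBL, mul_div_assoc, div_self hBL, mul_one]
      obtain ⟨e, he⟩ := exists_cube3 h3L (b / cB N) (u ^ 2) (by
        rw [hbd]
        ring)
      have he3 : algebraMap N L e ^ 3 = u ^ 6 := by
        rw [← map_pow, he, hbd]
      have he0 : e ≠ 0 := by
        rintro rfl
        rw [map_zero, zero_pow three_ne_zero] at he3
        exact pow_ne_zero 6 hu he3.symm
      have hxL : ((algebraMap N L e / u ^ 2) ^ 2 * u) ^ 2 = algebraMap N L e := by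
        have h1 : ((algebraMap N L e / u ^ 2) ^ 2 * u) ^ 2 =
            algebraMap N L e * (algebraMap N L e ^ 3 / u ^ 6) := by
          field_simp
        rw [h1, he3, div_self (pow_ne_zero 6 hu), mul_one]
      refine fin_part h2 hB he0 ?_ ?_ D hD
        (algebraMap L M ((algebraMap N L e / u ^ 2) ^ 2 * u)) ?_
      · rw [ha0, hAN, mul_zero]
      · rw [he, div_mul_cancel₀ _ hBN]
      · rw [← map_pow, hxL]
        rfl
    · -- `A ≠ 0`, `B ≠ 0`
      have hAN : cA N ≠ 0 := (Int.cast_ne_zero (α := N)).2 hA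
      have hAL : cA L ≠ 0 := (Int.cast_ne_zero (α := L)).2 hA
      have haA : algebraMap N L (a / cA N) = u ^ 4 := by
        rw [map_div₀, ha, cAL, mul_div_assoc, div_self hAL, mul_one]
      have hbB : algebraMap N L (b / cB N) = u ^ 6 := by
        rw [map_div₀, hb, cBL, mul_div_assoc, div_self hBL, mul_one]
      obtain ⟨e, he⟩ : ∃ e : N, e = (b / cB N) / (a / cA N) := ⟨_, rfl⟩
      have heL : algebraMap N L e = u ^ 2 := by
        rw [he, map_div₀, haA, hbB]
        field_simp
      have he0 : e ≠ 0 := by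
        rintro rfl
        rw [map_zero] at heL
        exact pow_ne_zero 2 hu heL.symm
      refine fin_part h2 hB he0 ?_ ?_ D hD (algebraMap L M u) ?_
      · apply (algebraMap N L).injective
        rw [map_mul, map_pow, heL, cAL, ha]
        ring
      · apply (algebraMap N L).injective
        rw [map_mul, map_pow, heL, cBL, hb]
        ring
      · rw [← map_pow, ← heL]
        rfl

/-- the scaling factor of the twist -/
theorem exists_tw_lam : ∃ x : K, x ≠ 0 ∧ ((tA : ℤ) : K) = (CD.A : K) * x ^ 4 ∧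
    ((tB : ℤ) : K) = (CD.B : K) * x ^ 6 := by
  obtain ⟨x, hx0, ha, hb⟩ := RG.exists_lam (a := tA) (b := tB) (by
    by_cases hB : CD.B = 0
    · right
      refine ⟨hB, ?_, ?_⟩
      · rw [tA, if_pos hB]
      · rw [tB, hB, zero_mul]
    · left
      refine ⟨hB, ?_, rfl⟩
      rw [tA, if_neg hB]
      rfl)
  refine ⟨x, hx0, ?_, ?_⟩
  · have h : embK ((tA : ℤ) : K) = embK ((CD.A : K) * x ^ 4) := by
      rw [map_intCast, map_mul, map_intCast, map_pow, ha]
    exact embK.injective h
  · have h : embK ((tB : ℤ) : K) = embK ((CD.B : K) * x ^ 6) := by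
      rw [map_intCast, map_mul, map_intCast, map_pow, hb]
    exact embK.injective h

/-- over a field which contains `K` the twist is isomorphic to the curve of `CD` -/
theorem crv_tw (F : Type*) [Field F] [Algebra K F] :
    ∃ C : WeierstrassCurve.VariableChange F, C • crv ((tA : ℤ) : F) ((tB : ℤ) : F) = E F := by
  obtain ⟨x, hx0, ha, hb⟩ := exists_tw_lam
  have hx : algebraMap K F x ≠ 0 := by
    rw [Ne, map_eq_zero]
    exact hx0
  obtain ⟨D, hD⟩ := exists_scale (cA F) (cB F) (algebraMap K F x) hx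
  have e1 : ((tA : ℤ) : F) = algebraMap K F x ^ 4 * cA F := by
    have h := congrArg (algebraMap K F) ha
    rw [map_intCast, map_mul, map_intCast, map_pow, mul_comm] at h
    exact h
  have e2 : ((tB : ℤ) : F) = algebraMap K F x ^ 6 * cB F := by
    have h := congrArg (algebraMap K F) hb
    rw [map_intCast, map_mul, map_intCast, map_pow, mul_comm] at h
    exact h
  refine ⟨D⁻¹, ?_⟩
  rw [E_eq_crv, inv_smul_eq_iff, hD, e1, e2]

end Pool.Agent.Lib.MP_1a91b9_nuX.LF
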