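import Pool.Agent.Lib.MP_1a91b9_nuT.TW.Core

/-!
# The curves `y² = x³ + a x + b` and the second twist class

`crv a b` is the curve `y² = x³ + a x + b`. `crv tA tB` is the twist of the curve of `CD` by the discriminant `dK` of `K` (if
`B = 0` it is the curve `y² = x³ - 4 A x`, which is isomorphic to it over `ℚ`). `ww` is `6` if `A = 0` and `2` otherwise.
-/

set_option autoImplicit false

namespace Pool.Agent.Lib.MP_1a91b9_nuX.LF

open NumberField WeierstrassCurve Pool.Agent.Lib.MP_1a91b9_nuT

/-- the curve `y² = x³ + a x + b` -/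
def crv {R : Type*} [CommRing R] (a b : R) : WeierstrassCurve R := ⟨0, 0, 0, a, b⟩

section
variable {R : Type*} [CommRing R]

theorem crv_map {S : Type*} [CommRing S] (f : R →+* S) (a b : R) :
    (crv a b).map f = crv (f a) (f b) := by
  ext <;> simp [crv]

theorem crv_Δ (a b : R) : (crv a b).Δ = -(16 * (4 * a ^ 3 + 27 * b ^ 2)) := by
  simp only [crv, WeierstrassCurve.Δ, WeierstrassCurve.b₂, WeierstrassCurve.b₄,
    WeierstrassCurve.b₆, WeierstrassCurve.b₈]
  ring

theorem crv_c₄ (a b : R) : (crv a b).c₄ = -(48 * a) := by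
  simp only [crv, WeierstrassCurve.c₄, WeierstrassCurve.b₂, WeierstrassCurve.b₄]
  ring

theorem crv_c₆ (a b : R) : (crv a b).c₆ = -(864 * b) := by
  simp only [crv, WeierstrassCurve.c₆, WeierstrassCurve.b₂, WeierstrassCurve.b₄,
    WeierstrassCurve.b₆]
  ring

end

/-- Scaling. -/
theorem exists_scale {k : Type*} [Field k] (a b α : k) (hα : α ≠ 0) :
    ∃ C : WeierstrassCurve.VariableChange k, C • crv a b = crv (α ^ 4 * a) (α ^ 6 * b) := by
  refine ⟨⟨(Units.mk0 α hα)⁻¹, 0, 0, 0⟩, ?_⟩
  ext
  · simp [crv, WeierstrassCurve.variableChange_a₁]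
  · simp [crv, WeierstrassCurve.variableChange_a₂]
  · simp [crv, WeierstrassCurve.variableChange_a₃]
  · simp [crv, WeierstrassCurve.variableChange_a₄]
  · simp [crv, WeierstrassCurve.variableChange_a₆]

variable [CD]

theorem E_eq_crv (F : Type*) [Field F] : E F = crv (cA F) (cB F) := rfl

export Pool.Agent.Lib.MP_1a91b9_nuT.TW (dK)

/-- the coefficients of the twist -/
def tA : ℤ := if CD.B = 0 then -4 * CD.A else CD.A * dK ^ 2
def tB : ℤ := CD.B * dK ^ 3

/-- the number of roots of unity of `K` up to squares -/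
def ww : ℕ := if CD.A = 0 then 6 else 2

theorem two_dvd_ww : 2 ∣ ww := by
  unfold ww
  split_ifs <;> norm_num

end Pool.Agent.Lib.MP_1a91b9_nuX.LF
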