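import Pool.Agent.Lib.MP_1a91b9_nuX.LF.NiceA
import Pool.Agent.Lib.MP_1a91b9_nuX.LF.Defs
import Pool.Agent.Lib.MP_1a91b9_nuX.DB.Ext
import Pool.Agent.Lib.MP_1a91b9_nuT.P.Unit

/-!
# The condition `Nice`: the bad places of `ℚ` stay bad

The units of `𝓞 K` (`unit_pow`), the criterion of Néron, Ogg and Shafarevich for the points of the curve (`nos_pt`, `good_three`, `good_two`), the definition of `Nice`, `Nice.down`.
-/

set_option autoImplicit false

namespace Pool.Agent.Lib.MP_1a91b9_nuX.LF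

open NumberField IsDedekindDomain WeierstrassCurve Pool.Agent.Lib.MP_1a91b9_nuT DB

universe u

variable [CD]

/-- the curve has good reduction at `v` over `N` -/
abbrev GoodE {N : Type*} [Field N] [NumberField N] (v : HeightOneSpectrum (𝓞 N)) : Prop :=
  ∃ C : VariableChange N, GM.GoodW (v.valuation N) (C • E N)

theorem goodE_up {k M : Type*} [Field k] [NumberField k] [Field M] [NumberField M] [Algebra k M]
    (w : HeightOneSpectrum (𝓞 M)) (h : GoodE (w.under (𝓞 k))) : GoodE w := by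
  have h1 := good_up (E k) w h
  rwa [Per.E_map] at h1

/-! ### Units -/

section
variable {ζ : (𝓞 K)ˣ}

private theorem emb_ne : embK ((ζ : 𝓞 K) : K) ≠ 0 := by
  intro h
  have h1 : ((ζ : 𝓞 K) : K) = 0 := (map_eq_zero_iff _ embK.injective).1 h
  have h2 : (ζ : 𝓞 K) = 0 := RingOfIntegers.ext h1
  exact ζ.ne_zero h2

private theorem emb_mem (l : ℂ) (hl : l ∈ PP.lattice) : embK ((ζ : 𝓞 K) : K) * l ∈ PP.lattice := by
  obtain ⟨a, rfl⟩ := S3.mem_PP_iff.1 hl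
  refine S3.mem_PP_iff.2 ⟨ζ * a, ?_⟩
  rw [← map_mul]
  rfl

private theorem emb_inv (l : ℂ) (hl : l ∈ PP.lattice) :
    (embK ((ζ : 𝓞 K) : K))⁻¹ * l ∈ PP.lattice := by
  have h := emb_mem (ζ := ζ⁻¹) l hl
  have e : embK (((ζ⁻¹ : (𝓞 K)ˣ) : 𝓞 K) : K) = (embK ((ζ : 𝓞 K) : K))⁻¹ := by
    rw [eq_comm, inv_eq_of_mul_eq_one_right]
    rw [← map_mul]
    have e1 : ((ζ : 𝓞 K) : K) * (((ζ⁻¹ : (𝓞 K)ˣ) : 𝓞 K) : K) = 1 := by
      have := congrArg (algebraMap (𝓞 K) K) (Units.mul_inv ζ)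
      rwa [map_mul, map_one] at this
    rw [e1, map_one]
  rwa [← e]

private theorem G_unit (k : ℕ) : PP.G k = (embK ((ζ : 𝓞 K) : K) ^ k)⁻¹ * PP.G k := by
  conv_lhs => rw [PeriodPair.G, ← (Per.mulE emb_mem emb_inv (emb_ne (ζ := ζ))).tsum_eq]
  rw [PeriodPair.G, ← tsum_mul_left]
  refine tsum_congr fun l => ?_
  show ((embK ((ζ : 𝓞 K) : K) * (l : ℂ)) ^ k)⁻¹ = _
  rw [mul_pow, mul_inv]

private theorem unit_k {k : ℕ} (h : PP.G k ≠ 0) : (ζ : 𝓞 K) ^ k = 1 := by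
  have h1 := G_unit (ζ := ζ) k
  have h2 : embK ((ζ : 𝓞 K) : K) ^ k = 1 := by
    have h3 : (embK ((ζ : 𝓞 K) : K) ^ k)⁻¹ = 1 :=
      mul_right_cancel₀ h (by rw [one_mul]; exact h1.symm)
    rwa [inv_eq_one] at h3
  apply RingOfIntegers.ext
  apply embK.toRingHom.injective
  change embK (((ζ : 𝓞 K) : K) ^ k) = embK 1
  rw [map_pow, h2, map_one]

/-- the order of the units divides `ww ^ 2` -/
theorem unit_pow (ζ : (𝓞 K)ˣ) : (ζ : 𝓞 K) ^ (ww ^ 2) = 1 := by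
  by_cases hA : CD.A = 0
  · have hB : CD.B ≠ 0 := by
      intro hB
      apply CD.disc
      rw [hA, hB]
      norm_num
    have h1 : (ζ : 𝓞 K) ^ 6 = 1 := by
      apply unit_k
      intro h
      have h2 := g3_eq
      rw [PeriodPair.g₃, h, mul_zero] at h2
      refine mul_ne_zero (mul_ne_zero (by norm_num) ?_) (pow_ne_zero 6 Om_ne) h2.symm
      exact (Int.cast_ne_zero (α := ℂ)).2 hB
    rw [ww, if_pos hA]
    have e : (6 : ℕ) ^ 2 = 6 * 6 := by norm_num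
    rw [e, pow_mul, h1, one_pow]
  · have h1 : (ζ : 𝓞 K) ^ 4 = 1 := by
      apply unit_k
      intro h
      have h2 := g2_eq
      rw [PeriodPair.g₂, h, mul_zero] at h2
      refine mul_ne_zero (mul_ne_zero (by norm_num) ?_) (pow_ne_zero 4 Om_ne) h2.symm
      exact (Int.cast_ne_zero (α := ℂ)).2 hA
    rw [ww, if_neg hA]
    exact h1

end

/-! ### `nos` and its converse for the points of `E` -/

theorem c4_le {N : Type*} [Field N] [NumberField N] (v : HeightOneSpectrum (𝓞 N)) :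
    v.valuation N ((E N).c₄ ^ 3) ≤ v.valuation N (E N).Δ := by
  obtain ⟨m, hm⟩ := CD.jint
  have h1 : (E N).c₄ ^ 3 = ((m : ℤ) : N) * (E N).Δ := by
    rw [E_eq_crv, crv_c₄, crv_Δ]
    have h2 := congrArg (Int.cast : ℤ → N) hm
    push_cast at h2
    change (-(48 * ((CD.A : ℤ) : N))) ^ 3 = (m : N) * -(16 * (4 * ((CD.A : ℤ) : N) ^ 3 + 27 * ((CD.B : ℤ) : N) ^ 2))
    linear_combination -16 * h2
  rw [h1, map_mul]
  have h3 : v.valuation N ((m : ℤ) : N) ≤ 1 := by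
    have h4 : v.valuation N (algebraMap (𝓞 N) N (m : 𝓞 N)) ≤ 1 := v.valuation_le_one _
    rwa [map_intCast] at h4
  exact mul_le_of_le_one_left' h3

theorem E_Δ_ne {N : Type*} [Field N] [CharZero N] : (E N).Δ ≠ 0 := by
  rw [E_eq_crv, crv_Δ]
  have h1 : ((4 * CD.A ^ 3 + 27 * CD.B ^ 2 : ℤ) : N) ≠ 0 := Int.cast_ne_zero.2 CD.disc
  push_cast at h1
  exact neg_ne_zero.2 (mul_ne_zero (by norm_num) h1)

theorem px_xc {F : Type*} [Field F] [Algebra K F] (T : Pt F) : GM.px T = xc T := by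
  rcases T with _ | ⟨x, y, h⟩ <;> rfl

theorem py_yc {F : Type*} [Field F] [Algebra K F] (T : Pt F) : GM.py T = yc T := by
  rcases T with _ | ⟨x, y, h⟩ <;> rfl

section
variable {k M : Type*} [Field k] [NumberField k] [Field M] [NumberField M] [Algebra k M]
  {w : HeightOneSpectrum (𝓞 M)}

private theorem nos_xy [DecidableEq M] {W : WeierstrassCurve k} {W' : WeierstrassCurve M}
    (hW : W.map (algebraMap k M) = W') {C : VariableChange k}
    (hC : GM.GoodW ((w.under (𝓞 k)).valuation k) (C • W)) {σ : Gal(M/k)}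
    (hσ : ∀ x : 𝓞 M, σ • x - x ∈ w.asIdeal) {P : W'.toAffine.Point} {n : ℕ}
    (hn : w.valuation M (n : M) = 1) (h : n • P = 0) :
    σ (GM.px P) = GM.px P ∧ σ (GM.py P) = GM.py P := by
  subst hW
  have h1 := GM.nos hC hσ hn h
  rw [← GM.px_gact, ← GM.py_gact, h1]
  exact ⟨rfl, rfl⟩

variable [Algebra K M]

theorem nos_pt [DecidableEq M] (hg : GoodE (w.under (𝓞 k))) {σ : Gal(M/k)}
    (hσ : ∀ x : 𝓞 M, σ • x - x ∈ w.asIdeal) {T : Pt M} {n : ℕ}
    (hn : w.valuation M (n : M) = 1) (h : n • T = 0) : σ (xc T) = xc T ∧ σ (yc T) = yc T := by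
  obtain ⟨C, hC⟩ := hg
  have e : (E k).map (algebraMap k M) = (E K).map (algebraMap K M) := by
    rw [Per.E_map, Per.E_map]
  have h1 := nos_xy (W' := (E K).map (algebraMap K M)) e hC hσ hn h
  have e1 : GM.px (W := (E K).map (algebraMap K M)) T = xc T := px_xc T
  have e2 : GM.py (W := (E K).map (algebraMap K M)) T = yc T := py_yc T
  rwa [e1, e2] at h1

variable [IsGalois k M]

private theorem act_eq [DecidableEq M] {W : WeierstrassCurve k} {σ : Gal(M/k)}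
    {P : (W.map (algebraMap k M)).toAffine.Point} (hx : σ (GM.px P) = GM.px P)
    (hy : σ (GM.py P) = GM.py P) : GM.gact σ P = P := by
  rcases P with _ | ⟨x, y, h⟩
  · exact map_zero _
  · obtain ⟨h', e⟩ : ∃ h', GM.gact σ (Affine.Point.some x y h) =
        Affine.Point.some (σ x) (σ y) h' := ⟨_, rfl⟩
    rw [e, Affine.Point.some.injEq]
    exact ⟨hx, hy⟩

private theorem three_xy [DecidableEq M] {W : WeierstrassCurve k} {W' : WeierstrassCurve M}
    (hW : W.map (algebraMap k M) = W') (hΔ : W.Δ ≠ 0)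
    (hj : (w.under (𝓞 k)).valuation k (W.c₄ ^ 3) ≤ (w.under (𝓞 k)).valuation k W.Δ)
    (h3 : (w.under (𝓞 k)).valuation k 3 = 1)
    {P Q : W'.toAffine.Point} (hP : P ≠ 0) (hQ : Q ≠ 0)
    (hP3 : 3 • P = 0) (hQ3 : 3 • Q = 0) (hPQ : Q ≠ P) (hPQ' : Q ≠ -P)
    (hI : ∀ σ : Gal(M/k), (∀ y : 𝓞 M, σ • y - y ∈ w.asIdeal) →
      (σ (GM.px P) = GM.px P ∧ σ (GM.py P) = GM.py P) ∧
      σ (GM.px Q) = GM.px Q ∧ σ (GM.py Q) = GM.py Q) :
    ∃ C : VariableChange k, GM.GoodW ((w.under (𝓞 k)).valuation k) (C • W) := by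
  subst hW
  exact GM.conv_three hΔ hj h3 hP hQ hP3 hQ3 hPQ hPQ'
    (fun σ hσ => act_eq (hI σ hσ).1.1 (hI σ hσ).1.2)
    (fun σ hσ => act_eq (hI σ hσ).2.1 (hI σ hσ).2.2)

private theorem two_xy [DecidableEq M] {W : WeierstrassCurve k} {W' : WeierstrassCurve M}
    (hW : W.map (algebraMap k M) = W') (hΔ : W.Δ ≠ 0)
    (hj : (w.under (𝓞 k)).valuation k (W.c₄ ^ 3) ≤ (w.under (𝓞 k)).valuation k W.Δ)
    (h2 : (w.under (𝓞 k)).valuation k 2 = 1)
    {Q T : W'.toAffine.Point} (hT : T ≠ 0) (hT2 : 2 • T = 0)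
    (hQ2 : 2 • Q ≠ 0) (hQ4 : 4 • Q = 0) (hQT : T ≠ 2 • Q)
    (hI : ∀ σ : Gal(M/k), (∀ y : 𝓞 M, σ • y - y ∈ w.asIdeal) →
      (σ (GM.px Q) = GM.px Q ∧ σ (GM.py Q) = GM.py Q) ∧
      σ (GM.px T) = GM.px T ∧ σ (GM.py T) = GM.py T) :
    ∃ C : VariableChange k, GM.GoodW ((w.under (𝓞 k)).valuation k) (C • W) := by
  subst hW
  exact GM.conv_two hΔ hj h2 hT hT2 hQ2 hQ4 hQT
    (fun σ hσ => act_eq (hI σ hσ).1.1 (hI σ hσ).1.2)
    (fun σ hσ => act_eq (hI σ hσ).2.1 (hI σ hσ).2.2)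

/-- the converse of `nos_pt`, points of order three -/
theorem good_three [DecidableEq M] (h3 : (w.under (𝓞 k)).valuation k 3 = 1) {P Q : Pt M}
    (hP : P ≠ 0) (hQ : Q ≠ 0) (hP3 : 3 • P = 0) (hQ3 : 3 • Q = 0) (hPQ : Q ≠ P) (hPQ' : Q ≠ -P)
    (hI : ∀ σ : Gal(M/k), (∀ y : 𝓞 M, σ • y - y ∈ w.asIdeal) →
      (σ (xc P) = xc P ∧ σ (yc P) = yc P) ∧ σ (xc Q) = xc Q ∧ σ (yc Q) = yc Q) :
    GoodE (w.under (𝓞 k)) := by
  have e : (E k).map (algebraMap k M) = (E K).map (algebraMap K M) := by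
    rw [Per.E_map, Per.E_map]
  refine three_xy (W' := (E K).map (algebraMap K M)) e E_Δ_ne (c4_le _) h3 hP hQ hP3 hQ3 hPQ hPQ'
    fun σ hσ => ?_
  have e1 : GM.px (W := (E K).map (algebraMap K M)) P = xc P := px_xc P
  have e2 : GM.py (W := (E K).map (algebraMap K M)) P = yc P := py_yc P
  have e3 : GM.px (W := (E K).map (algebraMap K M)) Q = xc Q := px_xc Q
  have e4 : GM.py (W := (E K).map (algebraMap K M)) Q = yc Q := py_yc Q
  rw [e1, e2, e3, e4]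
  exact hI σ hσ

/-- the converse of `nos_pt`, points of order four -/
theorem good_two [DecidableEq M] (h2 : (w.under (𝓞 k)).valuation k 2 = 1) {Q T : Pt M}
    (hT : T ≠ 0) (hT2 : 2 • T = 0) (hQ2 : 2 • Q ≠ 0) (hQ4 : 4 • Q = 0) (hQT : T ≠ 2 • Q)
    (hI : ∀ σ : Gal(M/k), (∀ y : 𝓞 M, σ • y - y ∈ w.asIdeal) →
      (σ (xc Q) = xc Q ∧ σ (yc Q) = yc Q) ∧ σ (xc T) = xc T ∧ σ (yc T) = yc T) :
    GoodE (w.under (𝓞 k)) := by
  have e : (E k).map (algebraMap k M) = (E K).map (algebraMap K M) := by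
    rw [Per.E_map, Per.E_map]
  refine two_xy (W' := (E K).map (algebraMap K M)) e E_Δ_ne (c4_le _) h2 hT hT2 hQ2 hQ4 hQT
    fun σ hσ => ?_
  have e1 : GM.px (W := (E K).map (algebraMap K M)) Q = xc Q := px_xc Q
  have e2 : GM.py (W := (E K).map (algebraMap K M)) Q = yc Q := py_yc Q
  have e3 : GM.px (W := (E K).map (algebraMap K M)) T = xc T := px_xc T
  have e4 : GM.py (W := (E K).map (algebraMap K M)) T = yc T := py_yc T
  rw [e1, e2, e3, e4]
  exact hI σ hσ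

end

/-! ### Places, the condition `Nice` -/

theorem dvd_lin {r m n : ℤ} (h : (r : 𝓞 K) ∣ (m : 𝓞 K) + (n : 𝓞 K) * CD.ta) : r ∣ m ∧ r ∣ n := by
  obtain ⟨c, hc⟩ := h
  obtain ⟨m', n', hc'⟩ := CD.gen c
  have h1 : (((m : 𝓞 K) + (n : 𝓞 K) * omO : 𝓞 K) : K) =
      ((((r * m' : ℤ) : 𝓞 K) + ((r * n' : ℤ) : 𝓞 K) * omO : 𝓞 K) : K) := by
    congr 1
    change (m : 𝓞 K) + (n : 𝓞 K) * CD.ta = ((r * m' : ℤ) : 𝓞 K) + ((r * n' : ℤ) : 𝓞 K) * CD.ta
    rw [hc, hc']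
    push_cast
    ring
  have h2 := congrArg embK h1
  rw [embK_lin, embK_lin] at h2
  obtain ⟨h3, h4⟩ := lin_inj _ _ _ _ h2
  exact ⟨⟨m', h3⟩, ⟨n', h4⟩⟩

/-- a place above `v` -/
theorem exists_over {N L : Type*} [Field N] [NumberField N] [Field L] [NumberField L]
    [Algebra N L] (v : HeightOneSpectrum (𝓞 N)) :
    ∃ w : HeightOneSpectrum (𝓞 L), w.under (𝓞 N) = v := by
  have i3 : v.asIdeal.IsPrime := v.isPrime
  obtain ⟨Q, hQ1, hQ2⟩ := (inferInstance : Nonempty (v.asIdeal.primesOver (𝓞 L)))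
  have hb : Q ≠ ⊥ := Ideal.ne_bot_of_mem_primesOver v.ne_bot ⟨hQ1, hQ2⟩
  refine ⟨⟨Q, hQ1, hb⟩, ?_⟩
  apply HeightOneSpectrum.ext
  exact hQ2.over.symm

theorem under_under {N L M : Type*} [Field N] [NumberField N] [Field L] [NumberField L]
    [Field M] [NumberField M] [Algebra N L] [Algebra N M] [Algebra L M] [IsScalarTower N L M]
    (w : HeightOneSpectrum (𝓞 M)) : (w.under (𝓞 L)).under (𝓞 N) = w.under (𝓞 N) :=
  HeightOneSpectrum.ext (Ideal.under_under _)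

/-- the bad places of `ℚ` stay bad -/
def Nice (N : Type*) [Field N] [NumberField N] : Prop :=
  ∀ v : HeightOneSpectrum (𝓞 N), (∃ C : VariableChange N, GM.GoodW (v.valuation N) (C • E N)) →
    ∃ C : VariableChange ℚ, GM.GoodW ((v.under (𝓞 ℚ)).valuation ℚ) (C • E ℚ)

/-- `Nice` goes down to subfields. -/
theorem Nice.down {N L : Type*} [Field N] [NumberField N] [Field L] [NumberField L]
    [Algebra N L] (h : Nice L) : Nice N := by
  intro v hv
  obtain ⟨w, rfl⟩ := exists_over (L := L) v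
  have h1 := h w (goodE_up w hv)
  rwa [← under_under (N := ℚ) (L := N) w] at h1

/-- the ramification index divides the degree of a Galois extension -/
theorem ram_dvd {k L : Type*} [Field k] [NumberField k] [Field L] [NumberField L]
    [Algebra k L] [IsGalois k L] (w : HeightOneSpectrum (𝓞 L)) :
    w.asIdeal.ramificationIdx (𝓞 k) ∣ Module.finrank k L := by
  rw [← card_inertia (k := k) w, ← IsGalois.card_aut_eq_finrank]
  exact Subgroup.card_subgroup_dvd_card _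

end Pool.Agent.Lib.MP_1a91b9_nuX.LF
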