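import Pool.Agent.Lib.MP_1a91b9_nuX.LF.Conj
import Pool.Agent.Lib.MP_1a91b9_nuX.LF.Cls
import Pool.Agent.Lib.MP_1a91b9_nuX.LF.NiceB
import Pool.Agent.Lib.MP_1a91b9_nuX.GM.Form
import Pool.Agent.Lib.MP_1a91b9_nuT.S4.Quad
import Pool.Agent.Lib.MP_1a91b9_nuT.CF.Frob

/-!
# The Euler factors of the curve and of its twist
-/

set_option autoImplicit false

namespace Pool.Agent.Lib.MP_1a91b9_nuX.LF

open NumberField IsDedekindDomain Polynomial WeierstrassCurve Pool.Agent.Lib.MP_1a91b9_nt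
  Pool.Agent.Lib.MP_1a91b9_nuT
open Pool.Agent.Lib.MP_1a91b9_nuT.S4 (Over)
open Pool.Agent.Lib.MP_1a91b9_nuX.AN (psC psbC)
open scoped Pointwise

universe u

/-- good models of isomorphic curves -/
theorem good_smul {N : Type*} [Field N] [NumberField N] (v : HeightOneSpectrum (𝓞 N))
    {W W' : WeierstrassCurve N} {C : VariableChange N} (hC : C • W = W')
    (h : ∃ C : VariableChange N, GM.GoodW (v.valuation N) (C • W)) :
    ∃ C : VariableChange N, GM.GoodW (v.valuation N) (C • W') := by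
  obtain ⟨D, hD⟩ := h
  refine ⟨D * C⁻¹, ?_⟩
  rw [mul_smul, ← hC, inv_smul_smul]
  exact hD

/-- the integrality of the invariant -/
theorem j_int {N : Type*} [Field N] [NumberField N] (v : HeightOneSpectrum (𝓞 N)) {a b : ℤ}
    (h : 4 * a ^ 3 + 27 * b ^ 2 ∣ 6912 * a ^ 3) {W : WeierstrassCurve N} {C : VariableChange N}
    (hC : C • W = crv (a : N) (b : N)) : v.valuation N (W.c₄ ^ 3) ≤ v.valuation N W.Δ := by
  have hW : W = C⁻¹ • crv (a : N) (b : N) := by rw [← hC, inv_smul_smul]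
  rw [hW]
  apply GM.j_change
  rw [crv_c₄, crv_Δ]
  obtain ⟨j, hj⟩ := h
  have hj' : (6912 : N) * (a : N) ^ 3 = (4 * (a : N) ^ 3 + 27 * (b : N) ^ 2) * (j : N) := by
    exact_mod_cast congrArg (fun z : ℤ => (z : N)) hj
  have e : (-(48 * (a : N))) ^ 3 = -(16 * (4 * (a : N) ^ 3 + 27 * (b : N) ^ 2)) * (j : N) := by
    linear_combination -16 * hj'
  rw [e, map_mul]
  have h1 : v.valuation N (j : N) ≤ 1 := by
    have h2 : v.valuation N (algebraMap (𝓞 N) N (j : 𝓞 N)) ≤ 1 := v.valuation_le_one _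
    rwa [map_intCast] at h2
  exact mul_le_of_le_one_right' h1

variable [CD]

theorem jint_tw : 4 * tA ^ 3 + 27 * tB ^ 2 ∣ 6912 * tA ^ 3 := by
  obtain ⟨j, hj⟩ := CD.jint
  by_cases hB : CD.B = 0
  · have hA : tA = -4 * CD.A := by rw [tA, if_pos hB]
    have hB' : tB = 0 := by rw [tB, hB, zero_mul]
    rw [hA, hB']
    exact ⟨1728, by ring⟩
  · have hA : tA = CD.A * dK ^ 2 := by rw [tA, if_neg hB]
    rw [hA, tB]
    exact ⟨j, by linear_combination dK ^ 6 * hj⟩

theorem E_mapF {N F : Type*} [Field N] [Field F] (f : N →+* F) : (E N).map f = E F := by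
  rw [E_eq_crv, crv_map, map_intCast, map_intCast]
  rfl

section
variable {N : Type*} [Field N] [NumberField N]

/-- the two classes of curves over `N` -/
def IsCl (W : WeierstrassCurve N) : Prop :=
  (∃ C : VariableChange N, C • W = crv (cA N) (cB N)) ∨
    ∃ C : VariableChange N, C • W = crv ((tA : ℤ) : N) ((tB : ℤ) : N)

theorem IsCl.j {W : WeierstrassCurve N} (h : IsCl W) (v : HeightOneSpectrum (𝓞 N)) :
    v.valuation N (W.c₄ ^ 3) ≤ v.valuation N W.Δ := by
  rcases h with ⟨C, hC⟩ | ⟨C, hC⟩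
  · exact j_int v CD.jint hC
  · exact j_int v jint_tw hC

theorem IsCl.up {W : WeierstrassCurve N} (h : IsCl W) (F : Type*) [Field F] [Algebra N F]
    [Algebra K F] : ∃ C : VariableChange F, C • W.map (algebraMap N F) = E F := by
  have key : ∀ {D : VariableChange N} {W' : WeierstrassCurve N}, D • W = W' →
      D.map (algebraMap N F) • W.map (algebraMap N F) = W'.map (algebraMap N F) := by
    intro D W' hD
    rw [← hD]
    exact (WeierstrassCurve.map_variableChange _ _ _)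
  rcases h with ⟨C, hC⟩ | ⟨C, hC⟩
  · refine ⟨C.map (algebraMap N F), ?_⟩
    rw [key hC, crv_map, map_intCast, map_intCast]
    rfl
  · obtain ⟨D, hD⟩ := crv_tw F
    refine ⟨D * C.map (algebraMap N F), ?_⟩
    rw [mul_smul, key hC, crv_map, map_intCast, map_intCast]
    exact hD

end

variable [HC]

section
variable {F : Type u} [Field F] [NumberField F] [Algebra K F]

theorem under_qK (w : HeightOneSpectrum (𝓞 F)) :
    (w.under (𝓞 K)).under (𝓞 ℚ) = w.under (𝓞 ℚ) := by
  apply HeightOneSpectrum.ext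
  exact Ideal.under_under (A := 𝓞 ℚ) (B := 𝓞 K) w.asIdeal

/-- the places which divide the conductor -/
theorem bad_F (h : Nice F) (w : HeightOneSpectrum (𝓞 F)) (hf : HC.f ∈ (w.under (𝓞 K)).asIdeal) :
    ¬ ∃ C : VariableChange F, GM.GoodW (w.valuation F) (C • E F) := by
  intro hC
  have h1 := h w hC
  refine HC.hd.bad (w.under (𝓞 K)) hf ?_
  have h2 := good_up (k := ℚ) (M := K) (E ℚ) (w.under (𝓞 K)) (by rw [under_qK]; exact h1)
  rwa [E_mapF] at h2

theorem psC_bad {w : HeightOneSpectrum (𝓞 F)} (hf : HC.f ∈ (w.under (𝓞 K)).asIdeal) :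
    psC F w.asIdeal = 0 ∧ psbC F w.asIdeal = 0 := by
  have h2 : psC F w.asIdeal = 0 := by
    rw [psC, GL.psi_bad hf]
    simp
  exact ⟨h2, by rw [psbC, h2, map_zero]⟩

/-- the Euler factor at a place which does not divide the conductor -/
theorem loc_f {w : HeightOneSpectrum (𝓞 F)} (hf : HC.f ∉ (w.under (𝓞 K)).asIdeal)
    (W : WeierstrassCurve F) (C : VariableChange F) (hC : C • W = E F) (x : ℂ) :
    aeval x (locPoly W w) = (1 - psC F w.asIdeal * x) * (1 - psbC F w.asIdeal * x) := by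
  have h1 := GL.loc_good hf W C hC
  obtain ⟨τ, hτ⟩ : ∃ τ : 𝓞 K →+* ℂ, τ = embK.toRingHom.comp (algebraMap (𝓞 K) K) := ⟨_, rfl⟩
  have h2 := congrArg (eval₂ τ x) h1
  rw [eval₂_map] at h2
  have h3 : τ.comp (Int.castRingHom (𝓞 K)) = algebraMap ℤ ℂ := RingHom.ext_int _ _
  rw [h3] at h2
  rw [aeval_def, h2]
  simp only [eval₂_mul, eval₂_sub, eval₂_one, eval₂_C, eval₂_X]
  have e1 : τ (psi F w.asIdeal) = psC F w.asIdeal := by rw [hτ]; rfl
  have e2 : τ (cj (psi F w.asIdeal)) = psbC F w.asIdeal := by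
    rw [psbC, psC, ← emb_cj, hτ]
    rfl
  rw [e1, e2]

/-- the Euler factor over a field containing `K` -/
theorem loc_all (h : Nice F) (w : HeightOneSpectrum (𝓞 F)) (W : WeierstrassCurve F)
    (C : VariableChange F) (hC : C • W = E F) (x : ℂ) :
    aeval x (locPoly W w) = (1 - psC F w.asIdeal * x) * (1 - psbC F w.asIdeal * x) := by
  by_cases hf : HC.f ∈ (w.under (𝓞 K)).asIdeal
  · obtain ⟨h1, h2⟩ := psC_bad hf
    rw [GL.locPoly_bad w W (j_int w CD.jint (C := C) hC)
      fun hg => bad_F h w hf (good_smul w hC hg), h1, h2, map_one]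
    ring
  · exact loc_f hf W C hC x

end

/-- the Euler factor over a field which does not contain `K` -/
theorem euler_N {N F : Type u} [Field N] [NumberField N] [Field F] [NumberField F]
    [Algebra N F] [Algebra K F] (hL : Module.finrank N F = 2)
    (hn : ∀ x : N, algebraMap N F x ≠ algebraMap K F om) (h : Nice F)
    (W : WeierstrassCurve N) (hW : IsCl W) (v : HeightOneSpectrum (𝓞 N)) (s : ℂ) :
    ∏ w : Over F v, (1 - psbC F w.1.asIdeal * (Ideal.absNorm w.1.asIdeal : ℂ) ^ (-s))⁻¹ =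
      fac W v s := by
  classical
  obtain ⟨D, hD⟩ := hW.up F
  have hun : ∀ w : Over F v, w.1.under (𝓞 N) = v := fun w => HeightOneSpectrum.ext w.2
  have hquad : Algebra.IsQuadraticExtension N F := ⟨hL⟩
  have hgal : IsGalois N F := inferInstance
  have hcard : Nat.card Gal(F/N) = 2 := by
    rw [IsGalois.card_aut_eq_finrank, hL]
  have hvp : v.asIdeal.IsPrime := v.isPrime
  have hvm : v.asIdeal.IsMaximal := v.isMaximal
  have hom : (algebraMap K F om) ^ 2 = (CD.tr : F) * algebraMap K F om - (CD.nm : F) := by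
    rw [← map_pow, om_quad, map_sub, map_mul, map_intCast, map_intCast]
  have hroot : ∀ σ : Gal(F/N), σ (algebraMap K F om) = algebraMap K F om ∨
      σ (algebraMap K F om) = algebraMap K F ((CD.tr : K) - om) := by
    intro σ
    have h2 : (σ (algebraMap K F om)) ^ 2 = (CD.tr : F) * σ (algebraMap K F om) - (CD.nm : F) := by
      rw [← map_pow, hom, map_sub, map_mul, map_intCast, map_intCast]
    have h4 : (σ (algebraMap K F om) - algebraMap K F om) *
        (σ (algebraMap K F om) + algebraMap K F om - (CD.tr : F)) = 0 := by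
      linear_combination h2 - hom
    rcases mul_eq_zero.mp h4 with h | h
    · exact Or.inl (sub_eq_zero.mp h)
    · right
      rw [map_sub, map_intCast]
      linear_combination h
  obtain ⟨σ₀, hσ₀⟩ : ∃ σ : Gal(F/N), σ (algebraMap K F om) = algebraMap K F ((CD.tr : K) - om) := by
    by_contra hcon
    push Not at hcon
    obtain ⟨x, hx⟩ := (IsGalois.mem_range_algebraMap_iff_fixed (algebraMap K F om)).mpr
      (fun σ => (hroot σ).resolve_right (hcon σ))
    exact hn x hx
  have hσ₀1 : σ₀ ≠ 1 := by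
    rintro rfl
    have h5 : algebraMap K F om = algebraMap K F ((CD.tr : K) - om) := hσ₀
    have h6 := (algebraMap K F).injective h5
    refine hn ((CD.tr : N) / 2) ?_
    rw [map_div₀, map_intCast, map_ofNat]
    have h7 : 2 * algebraMap K F om = (CD.tr : F) := by
      have h8 : 2 * om = (CD.tr : K) := by linear_combination h6
      rw [← map_ofNat (algebraMap K F) 2, ← map_mul, h8, map_intCast]
    rw [← h7]
    field_simp
  have huniq : ∀ σ : Gal(F/N), σ ≠ 1 → σ = σ₀ := by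
    intro σ hσ
    obtain ⟨y, hy, hyu⟩ := (Nat.card_eq_two_iff' (1 : Gal(F/N))).mp hcard
    rw [hyu σ hσ, hyu σ₀ hσ₀1]
  have htrans : ∀ w w' : Over F v, w ≠ w' → w'.1.asIdeal = σ₀ • w.1.asIdeal := by
    intro w w' hww
    have i1 : w.1.asIdeal.IsPrime := w.1.isPrime
    have i2 : w.1.asIdeal.LiesOver v.asIdeal := ⟨w.2.symm⟩
    have i1' : w'.1.asIdeal.IsPrime := w'.1.isPrime
    have i2' : w'.1.asIdeal.LiesOver v.asIdeal := ⟨w'.2.symm⟩
    obtain ⟨σ, hσ⟩ := Ideal.exists_smul_eq_of_isGaloisGroup v.asIdeal w.1.asIdeal w'.1.asIdeal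
      Gal(F/N)
    have hσ1 : σ ≠ 1 := by
      rintro rfl
      rw [one_smul] at hσ
      exact hww (Subtype.ext (HeightOneSpectrum.ext hσ))
    rw [huniq σ hσ1] at hσ
    exact hσ.symm
  by_cases hb : ∃ w₀ : Over F v, HC.f ∈ (w₀.1.under (𝓞 K)).asIdeal
  · obtain ⟨w₀, hw₀⟩ := hb
    have hall : ∀ w : Over F v, HC.f ∈ (w.1.under (𝓞 K)).asIdeal := by
      intro w
      by_cases hw : w₀ = w
      · rwa [← hw]
      · exact (f_conj hσ₀ (htrans w₀ w hw)).2 hw₀
    have hbad : ¬ ∃ C : VariableChange N, GM.GoodW (v.valuation N) (C • W) := by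
      intro hg
      have h1 := good_up (k := N) (M := F) W w₀.1 (by rw [hun w₀]; exact hg)
      exact bad_F h w₀.1 hw₀ (good_smul w₀.1 hD h1)
    rw [fac, GL.locPoly_bad v W (hW.j v) hbad, map_one, inv_one]
    refine Finset.prod_eq_one fun w _ => ?_
    rw [(psC_bad (hall w)).2]
    simp
  push Not at hb
  obtain ⟨w₀⟩ : Nonempty (Over F v) := by
    obtain ⟨w, hw⟩ := CF.exists_over (k := N) (N := F) v
    exact ⟨⟨w, by rw [← hw]; rfl⟩⟩
  have i0p : w₀.1.asIdeal.IsPrime := w₀.1.isPrime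
  have i0 : w₀.1.asIdeal.LiesOver v.asIdeal := ⟨w₀.2.symm⟩
  have hram : ∀ w : Over F v, w.1.asIdeal.ramificationIdx (𝓞 N) = 1 := fun w =>
    GL.ram_f hL hn (hun w) (hb w)
  have hfund := Ideal.ncard_primesOver_mul_ramificationIdxIn_mul_inertiaDegIn v.asIdeal (𝓞 F)
    Gal(F/N)
  rw [hcard, Ideal.ramificationIdxIn_eq_ramificationIdx v.asIdeal w₀.1.asIdeal Gal(F/N), hram w₀,
    one_mul, ← card_over_eq, Nat.card_eq_fintype_card] at hfund
  have hdeg : ∀ w : Over F v, w.1.asIdeal.inertiaDeg (𝓞 N) = v.asIdeal.inertiaDegIn (𝓞 F) := by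
    intro w
    have i1 : w.1.asIdeal.IsPrime := w.1.isPrime
    have i2 : w.1.asIdeal.LiesOver v.asIdeal := ⟨w.2.symm⟩
    exact (Ideal.inertiaDegIn_eq_inertiaDeg v.asIdeal w.1.asIdeal Gal(F/N)).symm
  have hnorm : ∀ w : Over F v, Ideal.absNorm w.1.asIdeal =
      Ideal.absNorm v.asIdeal ^ v.asIdeal.inertiaDegIn (𝓞 F) := by
    intro w
    have i1 : w.1.asIdeal.IsMaximal := w.1.isMaximal
    have i2 : w.1.asIdeal.LiesOver v.asIdeal := ⟨w.2.symm⟩
    rw [← hdeg w, Ideal.absNorm_pow_inertiaDeg v.asIdeal w.1.asIdeal]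
  have hcase : Fintype.card (Over F v) = 2 ∧ v.asIdeal.inertiaDegIn (𝓞 F) = 1 ∨
      Fintype.card (Over F v) = 1 ∧ v.asIdeal.inertiaDegIn (𝓞 F) = 2 := by
    have h1 : Fintype.card (Over F v) ∣ 2 := ⟨_, hfund.symm⟩
    rcases (Nat.dvd_prime Nat.prime_two).1 h1 with h2 | h2
    · right
      refine ⟨h2, ?_⟩
      change Fintype.card (Over F v) * _ = 2 at hfund
      rw [h2, one_mul] at hfund
      exact hfund
    · left
      refine ⟨h2, ?_⟩
      change Fintype.card (Over F v) * _ = 2 at hfund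
      rw [h2] at hfund
      omega
  rcases hcase with ⟨g3, g2⟩ | ⟨g3, g2⟩
  · -- split
    rw [← Finset.card_univ, Finset.card_eq_two] at g3
    obtain ⟨w, w', hww, huniv⟩ := g3
    rw [huniv, Finset.prod_pair hww]
    have hN : ∀ w : Over F v, Ideal.absNorm w.1.asIdeal = Ideal.absNorm v.asIdeal := by
      intro w
      rw [hnorm w, g2, pow_one]
    have hpsi := psC_conj hσ₀ (htrans w w' hww) (by rw [hN, hN])
    have hpsib : psbC F w'.1.asIdeal = psC F w.1.asIdeal := by
      rw [psbC, hpsi, psbC, Complex.conj_conj]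
    have hsame := GL.loc_split hL hn (hun w) (hb w) W hW (by rw [hdeg w, g2])
    rw [fac, nrm_eq, hsame, loc_f (hb w) (W.map (algebraMap N F)) D hD, hpsib, hN, hN, mul_inv,
      mul_comm]
  · -- inert
    have hsub : Subsingleton (Over F v) := Fintype.card_le_one_iff_subsingleton.mp g3.le
    rw [← Finset.card_univ, Finset.card_eq_one] at g3
    obtain ⟨w, huniv⟩ := g3
    rw [huniv, Finset.prod_singleton]
    obtain ⟨h1, h2⟩ := GL.loc_inert hL hn (hun w) (hb w) W hW (by rw [hdeg w, g2])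
    have hpsib : psbC F w.1.asIdeal = -(Ideal.absNorm v.asIdeal : ℂ) := by
      rw [psbC, psC, h2]
      have e : ((-(Ideal.absNorm v.asIdeal : 𝓞 K) : 𝓞 K) : K) = -(Ideal.absNorm v.asIdeal : K) := by
        change algebraMap (𝓞 K) K _ = _
        rw [map_neg, map_natCast]
      rw [e, map_neg, map_natCast, map_neg, map_natCast]
    rw [fac, nrm_eq, h1, hpsib, hnorm w, g2]
    congr 1
    have h8 : ((Ideal.absNorm v.asIdeal ^ 2 : ℕ) : ℂ) ^ (-s) =
        (Ideal.absNorm v.asIdeal : ℂ) ^ (-s) * (Ideal.absNorm v.asIdeal : ℂ) ^ (-s) := by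
      rw [pow_two, Nat.cast_mul, Complex.natCast_mul_natCast_cpow]
    rw [h8]
    simp only [map_add, map_one, map_mul, map_pow, aeval_X, map_natCast]
    ring

end Pool.Agent.Lib.MP_1a91b9_nuX.LF
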