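import Pool.Agent.Lib.MP_1a91b9_nuX.LF.NiceC

/-!
# Good reduction goes down in extensions with ramification prime to `ww`

`good_down`: if the curve has good reduction at `w` over `L`, and the ramification index of `w` over `N ∋ K` is prime to `ww`, it has good reduction over `N`.
`Nice.up_ram`, `Nice.up`.
-/

set_option autoImplicit false

namespace Pool.Agent.Lib.MP_1a91b9_nuX.LF

open NumberField IsDedekindDomain WeierstrassCurve Pool.Agent.Lib.MP_1a91b9_nuT DB

universe u

variable [CD]

open scoped Classical in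
/-- a Galois extension which contains a given field and a point with annihilator `(β)` -/
private theorem exists_big (N L : Type u) [Field N] [NumberField N] [Field L] [NumberField L]
    [Algebra K N] [Algebra N L] {β : 𝓞 K} (hβ : β ≠ 0) :
    ∃ (M : Type u) (_ : Field M) (_ : NumberField M) (_ : Algebra K M) (_ : Algebra N M)
      (_ : Algebra L M) (_ : IsScalarTower K N M) (_ : IsScalarTower N L M),
      IsGalois N M ∧ ∃ R : Pt M, Ord β R := by
  have aL : Algebra.IsAlgebraic N L := by
    have : FiniteDimensional N L := Module.Finite.of_restrictScalars_finite ℚ N L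
    exact Algebra.IsAlgebraic.of_finite N L
  have fL : FiniteDimensional N L := Module.Finite.of_restrictScalars_finite ℚ N L
  have aΩ : Algebra.IsAlgebraic N (AlgebraicClosure L) := Algebra.IsAlgebraic.trans N L _
  have hC : IsAlgClosure N (AlgebraicClosure L) := ⟨inferInstance, aΩ⟩
  have hN : Normal N (AlgebraicClosure L) := IsAlgClosure.normal N _
  obtain ⟨k, hk⟩ : ∃ k, k = IntermediateField.normalClosure N L (AlgebraicClosure L) := ⟨_, rfl⟩
  have hfin : FiniteDimensional N k := by
    rw [hk]
    exact normalClosure.is_finiteDimensional N L _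
  have hnorm : Normal N k := by
    rw [hk]
    exact normalClosure.normal N L _
  have hnf : NumberField k := NumberField.of_module_finite N k
  have hgal : IsGalois N k := ⟨⟩
  have hmem : ∀ x : L, algebraMap L (AlgebraicClosure L) x ∈ k := by
    intro x
    rw [hk]
    have h1 : (IsScalarTower.toAlgHom N L (AlgebraicClosure L)).fieldRange ≤
        IntermediateField.normalClosure N L (AlgebraicClosure L) :=
      AlgHom.fieldRange_le_normalClosure _
    exact h1 ⟨x, rfl⟩
  let algLk : Algebra L k :=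
    ((algebraMap L (AlgebraicClosure L)).codRestrict k.toSubalgebra.toSubring hmem).toAlgebra
  have tNLk : IsScalarTower N L k := IsScalarTower.of_algebraMap_eq fun x =>
    Subtype.ext (IsScalarTower.algebraMap_apply N L (AlgebraicClosure L) x)
  let algKk : Algebra K k := ((algebraMap N k).comp (algebraMap K N)).toAlgebra
  have tKNk : IsScalarTower K N k := IsScalarTower.of_algebraMap_eq fun x => rfl
  obtain ⟨M, iM, nM, aKM, aNM, akM, t1, t2, t3, g1, -, R, hR, -⟩ := exists_ext N k hβ
  let algLM : Algebra L M := ((algebraMap k M).comp (algebraMap L k)).toAlgebra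
  have tNLM : IsScalarTower N L M := by
    refine IsScalarTower.of_algebraMap_eq fun x => ?_
    change algebraMap N M x = algebraMap k M (algebraMap L k (algebraMap N L x))
    rw [← IsScalarTower.algebraMap_apply N L k, ← IsScalarTower.algebraMap_apply N k M]
  exact ⟨M, iM, nM, aKM, aNM, algLM, t1, tNLM, g1, R, hR⟩

/-- **Good reduction goes down** in an extension with ramification prime to `m`. -/
theorem good_down {m : ℕ} (hE : InEx m) {N L : Type u} [Field N] [NumberField N] [Field L]
    [NumberField L] [Algebra K N] [Algebra N L] {w : HeightOneSpectrum (𝓞 L)}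
    (hr : (w.asIdeal.ramificationIdx (𝓞 N)).Coprime m) (hg : GoodE w) :
    GoodE (w.under (𝓞 N)) := by
  classical
  have two3 : ∀ {M : Type u} [Field M] [NumberField M] (v : HeightOneSpectrum (𝓞 M)),
      v.valuation M (3 : M) ≠ 1 → v.valuation M (2 : M) = 1 := by
    intro M _ _ v h3
    have hle : ∀ n : ℕ, v.valuation M (n : M) ≤ 1 := by
      intro n
      have h1 : v.valuation M (algebraMap (𝓞 M) M (n : 𝓞 M)) ≤ 1 := v.valuation_le_one _
      rwa [map_natCast] at h1
    have h3' : v.valuation M (3 : M) < 1 := lt_of_le_of_ne (hle 3) h3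
    refine le_antisymm (hle 2) (not_lt.1 fun h2 => ?_)
    have h4 : v.valuation M ((3 : M) - 2) < 1 :=
      (v.valuation M).map_sub_lt h3' h2
    have e : (3 : M) - 2 = 1 := by norm_num
    rw [e, map_one] at h4
    exact lt_irrefl _ h4
  obtain ⟨n, hn3, hβ⟩ : ∃ n : ℕ, (n = 3 ∧ (w.under (𝓞 N)).valuation N (3 : N) = 1 ∨
      n = 4 ∧ (w.under (𝓞 N)).valuation N (2 : N) = 1) ∧ ((n : ℕ) : 𝓞 K) ≠ 0 := by
    by_cases h3 : (w.under (𝓞 N)).valuation N (3 : N) = 1
    · exact ⟨3, Or.inl ⟨rfl, h3⟩, by norm_num⟩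
    · exact ⟨4, Or.inr ⟨rfl, two3 _ h3⟩, by norm_num⟩
  obtain ⟨M, iM, nM, aKM, aNM, aLM, t1, t2, gM, R, hR⟩ := exists_big N L hβ
  obtain ⟨W, rfl⟩ := exists_over (L := M) w
  rw [under_under] at hn3 ⊢
  have hnM : W.valuation M (n : M) = 1 := by
    rcases hn3 with ⟨rfl, h⟩ | ⟨rfl, h⟩
    · have h1 := GM.one_up h
      rwa [map_ofNat] at h1
    · have h1 := GM.one_up h
      rw [map_ofNat] at h1
      have e : ((4 : ℕ) : M) = 2 * 2 := by norm_num
      rw [e, map_mul, h1, one_mul]
  have key := fix_all (k := N) (L := L) (w := W)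
    (S := {x : M | ∃ T : Pt M, n • T = 0 ∧ (x = xc T ∨ x = yc T)}) ?_
    (m := m) hr ?_ ?_
  · have hn0 : n • R = 0 := by
      rw [← sm_nat]
      exact (hR _).2 dvd_rfl
    have hsm : ∀ c : 𝓞 K, n • sm M c R = 0 := by
      intro c
      rw [← map_nsmul, hn0, map_zero]
    have kx : ∀ σ : Gal(M/N), (∀ y : 𝓞 M, σ • y - y ∈ W.asIdeal) → ∀ c : 𝓞 K,
        σ (xc (sm M c R)) = xc (sm M c R) ∧ σ (yc (sm M c R)) = yc (sm M c R) := by
      intro σ hσ c
      exact ⟨key σ hσ _ ⟨_, hsm c, Or.inl rfl⟩, key σ hσ _ ⟨_, hsm c, Or.inr rfl⟩⟩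
    have nd : ∀ a b : ℤ, (¬ (n : ℤ) ∣ a ∨ ¬ (n : ℤ) ∣ b) →
        sm M ((a : 𝓞 K) + (b : 𝓞 K) * CD.ta) R ≠ 0 := by
      intro a b hab h0
      have h1 := (hR _).1 h0
      have h2 : ((n : ℤ) : 𝓞 K) ∣ (a : 𝓞 K) + (b : 𝓞 K) * CD.ta := by
        rw [Int.cast_natCast]
        exact h1
      obtain ⟨h3, h4⟩ := dvd_lin h2
      rcases hab with h | h
      · exact h h3
      · exact h h4
    have hs1 : sm M (1 : 𝓞 K) R = R := by
      rw [map_one]
      rfl
    have hadd : ∀ a b : 𝓞 K, sm M (a + b) R = sm M a R + sm M b R := by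
      intro a b
      rw [map_add]
      rfl
    rcases hn3 with ⟨rfl, h3⟩ | ⟨rfl, h2⟩
    · refine good_three (k := N) (w := W) h3 (P := sm M 1 R) (Q := sm M CD.ta R) ?_ ?_ (hsm _)
        (hsm _) ?_ ?_ (fun σ hσ => ⟨kx σ hσ _, kx σ hσ _⟩)
      · have h := nd 1 0 (Or.inl (by norm_num))
        rwa [Int.cast_one, Int.cast_zero, zero_mul, add_zero] at h
      · have h := nd 0 1 (Or.inr (by norm_num))
        rwa [Int.cast_one, Int.cast_zero, zero_add, one_mul] at h
      · intro he
        refine nd (-1) 1 (Or.inr (by norm_num)) ?_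
        rw [hadd, Int.cast_one, one_mul, he, Int.cast_neg, Int.cast_one, ← hadd, neg_add_cancel,
          map_zero]
        rfl
      · intro he
        refine nd 1 1 (Or.inr (by norm_num)) ?_
        rw [hadd, Int.cast_one, one_mul, he, add_neg_cancel]
    · have e2 : (2 : ℕ) • sm M 1 R = sm M 2 R := by
        rw [two_nsmul, ← hadd, one_add_one_eq_two]
      refine good_two (k := N) (w := W) h2 (Q := sm M 1 R) (T := sm M (2 * CD.ta) R) ?_ ?_ ?_
        (hsm _) ?_ (fun σ hσ => ⟨kx σ hσ _, kx σ hσ _⟩)
      · have h := nd 0 2 (Or.inr (by norm_num))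
        rwa [Int.cast_zero, zero_add, Int.cast_ofNat] at h
      · rw [two_nsmul, ← hadd]
        refine (hR _).2 ⟨CD.ta, ?_⟩
        push_cast
        ring
      · rw [e2]
        have h := nd 2 0 (Or.inl (by norm_num))
        rwa [Int.cast_zero, zero_mul, add_zero, Int.cast_ofNat] at h
      · rw [e2]
        intro he
        refine nd (-2) 2 (Or.inr (by norm_num)) ?_
        rw [hadd, Int.cast_ofNat, he, Int.cast_neg, Int.cast_ofNat, ← hadd, neg_add_cancel,
          map_zero]
        rfl
  · rintro σ x ⟨T, hT, hx⟩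
    refine ⟨ga σ T, ?_, ?_⟩
    · rw [← map_nsmul, hT, map_zero]
    · rcases hx with rfl | rfl
      · left
        rw [xc_ga]
      · right
        rw [yc_ga]
  · rintro σ hσ x ⟨T, hT, hx⟩
    have h1 := nos_pt (k := L) (w := W) hg hσ hnM hT
    rcases hx with rfl | rfl
    · exact h1.1
    · exact h1.2
  · rintro σ hσ x ⟨T, hT, hx⟩
    have h1 := inert_pow hE hσ hnM hT
    rcases hx with rfl | rfl
    · exact h1.1
    · exact h1.2

theorem Nice.up_m {m : ℕ} (hE : InEx m) {N L : Type u} [Field N] [NumberField N] [Field L]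
    [NumberField L] [Algebra K N] [Algebra N L]
    (hr : ∀ w : HeightOneSpectrum (𝓞 L),
      (¬ ∃ C : VariableChange N, GM.GoodW ((w.under (𝓞 N)).valuation N) (C • E N)) →
      (w.asIdeal.ramificationIdx (𝓞 N)).Coprime m) (h : Nice N) : Nice L := by
  intro w hw
  have h1 : GoodE (w.under (𝓞 N)) := by
    by_contra hb
    exact hb (good_down hE (hr w hb) hw)
  have h2 := h _ h1
  rwa [under_under] at h2

/-- `Nice` goes up if the places of bad reduction have ramification prime to `ww`. -/
theorem Nice.up_ram (hE : GL.EllK) {N L : Type u} [Field N] [NumberField N] [Field L]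
    [NumberField L] [Algebra K N] [Algebra N L]
    (hr : ∀ w : HeightOneSpectrum (𝓞 L),
      (¬ ∃ C : VariableChange N, GM.GoodW ((w.under (𝓞 N)).valuation N) (C • E N)) →
      (w.asIdeal.ramificationIdx (𝓞 N)).Coprime ww) (h : Nice N) : Nice L :=
  Nice.up_m (inEx_ww hE) (fun w hw => (hr w hw).pow_right 2) h

/-- `Nice` goes up in Galois extensions of degree prime to `ww`. -/
theorem Nice.up (hE : GL.EllK) {N L : Type u} [Field N] [NumberField N] [Field L]
    [NumberField L] [Algebra K N] [Algebra N L] [IsGalois N L]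
    (hd : (Module.finrank N L).Coprime ww) (h : Nice N) : Nice L :=
  Nice.up_ram hE (fun w _ => Nat.Coprime.coprime_dvd_left (ram_dvd w) hd) h

/-- `Nice` goes up if the places of bad reduction have ramification prime to `6`. -/
theorem Nice.up_ram6 {N L : Type u} [Field N] [NumberField N] [Field L]
    [NumberField L] [Algebra K N] [Algebra N L]
    (hr : ∀ w : HeightOneSpectrum (𝓞 L),
      (¬ ∃ C : VariableChange N, GM.GoodW ((w.under (𝓞 N)).valuation N) (C • E N)) →
      (w.asIdeal.ramificationIdx (𝓞 N)).Coprime 6) (h : Nice N) : Nice L := by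
  refine Nice.up_m inEx_48 (fun w hw => ?_) h
  have h1 := (hr w hw).pow_right 4
  exact Nat.Coprime.coprime_dvd_right (by norm_num) h1

/-- `Nice` goes up in Galois extensions of degree prime to `6`. -/
theorem Nice.up6 {N L : Type u} [Field N] [NumberField N] [Field L]
    [NumberField L] [Algebra K N] [Algebra N L] [IsGalois N L]
    (hd : (Module.finrank N L).Coprime 6) (h : Nice N) : Nice L :=
  Nice.up_ram6 (fun w _ => Nat.Coprime.coprime_dvd_left (ram_dvd w) hd) h

end Pool.Agent.Lib.MP_1a91b9_nuX.LF
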