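import Pool.Agent.Lib.MP_1a91b9_nuX.AN.Psi
import Pool.Agent.Lib.MP_1a91b9_nuT.S7.HalfPlane

/-!
# The L-functions of the Hecke characters `ψ_F`: complex conjugation, the half plane `3/2 < Re s`
-/

set_option autoImplicit false

namespace Pool.Agent.Lib.MP_1a91b9_nuX.LF

variable [Pool.Agent.Lib.MP_1a91b9_nuT.CD]

open NumberField IsDedekindDomain Filter Topology LSeries
  Pool.Agent.Lib.MP_1a91b9_nt Pool.Agent.Lib.MP_1a91b9_nuT Pool.Agent.Lib.MP_1a91b9_nuT.S7
open Pool.Agent.Lib.MP_1a91b9_nuT.S4 (Lf)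
open Pool.Agent.Lib.MP_1a91b9_nuX.AN (psC psbC)

universe u

theorem Lf_conj [HC] {F : Type u} [Field F] [NumberField F] [Algebra K F] (s : ℂ) :
    Lf (psC F) s = (starRingEnd ℂ) (Lf (psbC F) ((starRingEnd ℂ) s)) := by
  rw [Lf, Lf, Complex.conj_tsum]
  refine tsum_congr fun I => ?_
  rw [map_mul, psbC, Complex.conj_conj]
  congr 1
  rw [← map_neg, Complex.cpow_conj _ _ (by
    rw [Complex.natCast_arg]
    exact Real.pi_pos.ne), Complex.conj_natCast, Complex.conj_conj]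

/-- from `2 < Re s` to `3/2 < Re s` -/
theorem half_Lf [HC] {F : Type u} [Field F] [NumberField F] [Algebra K F] {g : ℂ → ℂ}
    (hg : Differentiable ℂ g) (h2 : ∀ s : ℂ, 2 < s.re → g s = Lf (psbC F) s) :
    ∀ s : ℂ, 3 / 2 < s.re → g s = Lf (psbC F) s := by
  have hq := hasSum_coefI_of_le (psbC F) (AN.psbC_one F) (AN.psbC_mul F) AN.norm_psbC_le
  set b : ℕ → ℂ := coefI (psbC F) with hb
  have hab : abscissaOfAbsConv b ≤ ((3 / 2 : ℝ) : EReal) := by
    refine LSeries.abscissaOfAbsConv_le_of_forall_lt_LSeriesSummable fun y hy => ?_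
    exact (hq y (by simpa using hy)).LSeriesSummable
  have hL : AnalyticOnNhd ℂ (LSeries b) {s : ℂ | 3 / 2 < s.re} := by
    refine (LSeries_analyticOnNhd b).mono fun s hs => ?_
    exact hab.trans_lt (by exact_mod_cast hs)
  have hG : AnalyticOnNhd ℂ g {s : ℂ | 3 / 2 < s.re} := fun s _ => hg.analyticAt s
  have hc : IsPreconnected {s : ℂ | 3 / 2 < s.re} := (convex_halfSpace_re_gt _).isPreconnected
  have h3 : (3 : ℂ) ∈ {s : ℂ | 3 / 2 < s.re} := by norm_num
  have hev : g =ᶠ[𝓝 (3 : ℂ)] LSeries b := by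
    have ho : IsOpen {s : ℂ | 2 < s.re} := isOpen_lt continuous_const Complex.continuous_re
    filter_upwards [ho.mem_nhds (show (3 : ℂ) ∈ {s : ℂ | 2 < s.re} by norm_num)] with s hs
    have hs' : 2 < s.re := hs
    rw [h2 s hs', (hq s (by linarith)).LSeries_eq]
  intro s hs
  rw [hG.eqOn_of_preconnected_of_eventuallyEq hL hc h3 hev hs, (hq s hs).LSeries_eq]

end Pool.Agent.Lib.MP_1a91b9_nuX.LF
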