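import Pool.Agent.Lib.MP_1a91b9_nuX.LF.NiceD
import Pool.Agent.Lib.MP_1a91b9_nuX.GL.Api

/-!
# `Nice K`: good reduction over `K` implies good reduction over `ℚ`

The ramified places of `K` are bad (`GL.ram_bad`), good models descend in unramified extensions (`GM.desc_good`).
-/

set_option autoImplicit false

namespace Pool.Agent.Lib.MP_1a91b9_nuX.LF

open NumberField IsDedekindDomain WeierstrassCurve Pool.Agent.Lib.MP_1a91b9_nuT DB

variable [CD]

private theorem exists_pp (v : HeightOneSpectrum (𝓞 K)) : ∃ p : ℕ, p.Prime ∧ (p : 𝓞 K) ∈ v.asIdeal := by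
  have key : ∀ n : ℕ, n ≠ 0 → (n : 𝓞 K) ∈ v.asIdeal → ∃ p : ℕ, p.Prime ∧ (p : 𝓞 K) ∈ v.asIdeal := by
    intro n
    induction n using Nat.strong_induction_on with
    | _ n ih =>
      intro hn0 hn
      have hn1 : n ≠ 1 := by
        rintro rfl
        rw [Nat.cast_one] at hn
        exact v.isPrime.ne_top ((Ideal.eq_top_iff_one _).2 hn)
      obtain ⟨m, hm⟩ := Nat.minFac_dvd n
      have h2 : 2 ≤ n.minFac := (Nat.minFac_prime hn1).two_le
      have hm0 : m ≠ 0 := by
        rintro rfl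
        exact hn0 (by rw [hm, mul_zero])
      have hmn : m < n := by
        conv_rhs => rw [hm]
        nlinarith [Nat.pos_of_ne_zero hm0]
      have e : (n : 𝓞 K) = (n.minFac : 𝓞 K) * (m : 𝓞 K) := by
        rw [← Nat.cast_mul, ← hm]
      rw [e] at hn
      rcases v.isPrime.mem_or_mem hn with h | h
      · exact ⟨_, Nat.minFac_prime hn1, h⟩
      · exact ih m hmn hm0 h
  refine key (Ideal.absNorm v.asIdeal) ?_ (Ideal.absNorm_mem _)
  intro h
  exact v.ne_bot (Ideal.absNorm_eq_zero_iff.1 h)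

private theorem sigma_cj {σ : Gal(K/ℚ)} (hne : σ ≠ 1) (y : 𝓞 K) : σ (y : K) = ((cj y : 𝓞 K) : K) := by
  have h1 : σ om = (CD.tr : K) - om := by
    have h2 := congrArg σ om_quad
    rw [map_pow, map_sub, map_mul, map_intCast, map_intCast] at h2
    have h3 : (σ om - om) * (σ om + om - (CD.tr : K)) = 0 := by
      linear_combination h2 - om_quad
    rcases mul_eq_zero.1 h3 with h | h
    · exfalso
      apply hne
      ext x
      obtain ⟨a, b, rfl⟩ := exists_rat_coords x
      rw [map_add, map_mul, map_ratCast, map_ratCast, sub_eq_zero.1 h]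
      rfl
    · linear_combination h
  obtain ⟨m, n, rfl⟩ := CD.gen y
  rw [cj_coords]
  change σ (algebraMap (𝓞 K) K ((m : 𝓞 K) + (n : 𝓞 K) * CD.ta)) =
    algebraMap (𝓞 K) K (((m + n * CD.tr : ℤ) : 𝓞 K) - (n : 𝓞 K) * CD.ta)
  rw [map_add, map_mul, map_intCast, map_intCast, map_sub, map_mul, map_intCast, map_intCast,
    map_add, map_mul, map_intCast, map_intCast]
  change _ + _ * σ om = _ - _ * om
  rw [h1]
  push_cast
  ring

/-- a place of `K` with a nontrivial inertia automorphism is ramified -/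
theorem inert_ram (v : HeightOneSpectrum (𝓞 K)) {σ : Gal(K/ℚ)}
    (hσ : ∀ y : 𝓞 K, σ • y - y ∈ v.asIdeal) (hne : σ ≠ 1) :
    ∃ p : ℕ, p.Prime ∧ Ideal.absNorm v.asIdeal = p ∧ v.asIdeal.map cj = v.asIdeal := by
  have hpid := CD.pidK
  have hc : ∀ y : 𝓞 K, cj y - y ∈ v.asIdeal := by
    intro y
    have h1 := hσ y
    have e : σ • y = cj y := RingOfIntegers.ext (sigma_cj hne y)
    rwa [e] at h1
  have hmem : ∀ y ∈ v.asIdeal, cj y ∈ v.asIdeal := by
    intro y hy
    have h1 := v.asIdeal.add_mem (hc y) hy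
    rwa [sub_add_cancel] at h1
  obtain ⟨p, hp, hpv⟩ := exists_pp v
  have hp2 := hp.two_le
  refine ⟨p, hp, ?_, le_antisymm (Ideal.map_le_iff_le_comap.2 hmem) ?_⟩
  · obtain ⟨π, hπ⟩ : ∃ π : 𝓞 K, v.asIdeal = Ideal.span {π} :=
      (IsPrincipalIdealRing.principal v.asIdeal).principal
    have hmul := mul_cj π
    rw [← hπ] at hmul
    have hpN : Ideal.absNorm (Ideal.span {((p : ℕ) : 𝓞 K)}) = p ^ 2 := by
      have h1 := absNorm_form (p : ℤ) 0
      rw [Int.cast_zero, zero_mul, add_zero, Int.cast_natCast] at h1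
      have h2 : ((Ideal.absNorm (Ideal.span {((p : ℕ) : 𝓞 K)}) : ℕ) : ℤ) = ((p ^ 2 : ℕ) : ℤ) := by
        rw [h1]
        push_cast
        ring
      exact_mod_cast h2
    have hle : Ideal.span {((p : ℕ) : 𝓞 K)} ≤ v.asIdeal := by
      rw [Ideal.span_singleton_le_iff_mem]
      exact hpv
    have hdvd := Ideal.absNorm_dvd_absNorm_of_le hle
    rw [hpN] at hdvd
    obtain ⟨j, hj, hj'⟩ := (Nat.dvd_prime_pow hp).1 hdvd
    have hj0 : j ≠ 0 := by
      rintro rfl
      rw [pow_zero] at hj'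
      exact v.isPrime.ne_top (Ideal.absNorm_eq_one_iff.1 hj')
    have hj2 : j ≠ 2 := by
      rintro rfl
      -- the ideal is generated by `p`
      have hgen : ∀ y ∈ v.asIdeal, (p : 𝓞 K) ∣ y := by
        intro y hy
        rw [hπ] at hpv hy
        obtain ⟨γ, hγ⟩ := Ideal.mem_span_singleton.1 hpv
        obtain ⟨y', hy'⟩ := Ideal.mem_span_singleton.1 hy
        have h1 : π * cj π = π ^ 2 * γ ^ 2 := by
          rw [hmul, hj', ← mul_pow, ← hγ]
          push_cast
          ring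
        have hπ0 : π ≠ 0 := by
          rintro rfl
          apply v.ne_bot
          rw [hπ, Ideal.span_singleton_eq_bot]
        have h2 : cj π = π * γ ^ 2 := by
          apply mul_left_cancel₀ hπ0
          rw [h1]
          ring
        have h3 : Ideal.absNorm (Ideal.span {γ}) = 1 := by
          have h4 : Ideal.absNorm (Ideal.span {π}) * Ideal.absNorm (Ideal.span {γ}) =
              Ideal.absNorm (Ideal.span {((p : ℕ) : 𝓞 K)}) := by
            rw [← map_mul, Ideal.span_singleton_mul_span_singleton, ← hγ]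
          rw [← hπ, hj', hpN] at h4
          have h5 : 0 < p ^ 2 := by positivity
          exact Nat.eq_of_mul_eq_mul_left h5 (by rw [h4, mul_one])
        have h4 : IsUnit γ := by
          rw [Ideal.absNorm_eq_one_iff] at h3
          exact Ideal.span_singleton_eq_top.1 h3
        rw [hy', hγ]
        exact mul_dvd_mul_left π (h4.dvd)
      have hta := hgen _ (hc CD.ta)
      have e1 : cj CD.ta - CD.ta = ((CD.tr : ℤ) : 𝓞 K) + ((-2 : ℤ) : 𝓞 K) * CD.ta := by
        have h1 := cj_coords 0 1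
        rw [Int.cast_zero, Int.cast_one, zero_add, one_mul, zero_add, one_mul] at h1
        change cj CD.ta = _ at h1
        rw [h1]
        push_cast
        ring
      rw [e1] at hta
      have hta' : ((p : ℤ) : 𝓞 K) ∣ ((CD.tr : ℤ) : 𝓞 K) + ((-2 : ℤ) : 𝓞 K) * CD.ta := by
        rw [Int.cast_natCast]
        exact hta
      obtain ⟨⟨s, hs⟩, h2⟩ := dvd_lin hta'
      have hp2' : p = 2 := by
        have h3 : (p : ℤ) ∣ 2 := by
          rwa [dvd_neg] at h2
        have h4 : p ∣ 2 := by exact_mod_cast h3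
        exact (Nat.prime_dvd_prime_iff_eq hp Nat.prime_two).1 h4
      subst hp2'
      push_cast at hs
      -- `c ^ 2 = D`
      obtain ⟨D, hD⟩ : ∃ D : ℤ, D = s ^ 2 - CD.nm := ⟨_, rfl⟩
      have hsq : (CD.ta - (s : 𝓞 K) - (D : 𝓞 K)) ^ 2 =
          ((D * (D + 1) : ℤ) : 𝓞 K) - 2 * (D : 𝓞 K) * (CD.ta - (s : 𝓞 K)) := by
        have h3 := CD.quad
        rw [hs] at h3
        push_cast at h3
        rw [hD]
        push_cast
        linear_combination h3
      have hev : ∃ t : ℤ, D * (D + 1) = 2 * t := by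
        obtain ⟨t, ht⟩ := Int.even_mul_succ_self D
        exact ⟨t, by rw [ht]; ring⟩
      obtain ⟨t, ht⟩ := hev
      have hm2 : (CD.ta - (s : 𝓞 K) - (D : 𝓞 K)) ^ 2 ∈ v.asIdeal := by
        rw [hsq, ht]
        have e : ((2 * t : ℤ) : 𝓞 K) - 2 * (D : 𝓞 K) * (CD.ta - (s : 𝓞 K)) =
            ((t : 𝓞 K) - (D : 𝓞 K) * (CD.ta - (s : 𝓞 K))) * ((2 : ℕ) : 𝓞 K) := by
          push_cast
          ring
        rw [e]
        exact v.asIdeal.mul_mem_left _ hpv
      have h3 := hgen _ (v.isPrime.mem_of_pow_mem _ hm2)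
      have e4 : CD.ta - (s : 𝓞 K) - (D : 𝓞 K) = ((-s - D : ℤ) : 𝓞 K) + ((1 : ℤ) : 𝓞 K) * CD.ta := by
        push_cast
        ring
      rw [e4] at h3
      have h3' : ((2 : ℤ) : 𝓞 K) ∣ ((-s - D : ℤ) : 𝓞 K) + ((1 : ℤ) : 𝓞 K) * CD.ta := by
        have e5 : ((2 : ℤ) : 𝓞 K) = ((2 : ℕ) : 𝓞 K) := by norm_num
        rw [e5]
        exact h3
      have h4 := (dvd_lin h3').2
      norm_num at h4
    have hj1 : j = 1 := by omega
    rw [hj', hj1, pow_one]
  · intro y hy
    have h1 := Ideal.mem_map_of_mem cj (hmem y hy)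
    rwa [cj_cj] at h1

/-- **Good reduction over `K` implies good reduction over `ℚ`.** -/
theorem nice_K (hE : GL.EllK) : Nice K := by
  intro v hv
  have hq : Algebra.IsQuadraticExtension ℚ K := ⟨finrank_K⟩
  have hgal : IsGalois ℚ K := inferInstance
  obtain ⟨C, hC⟩ := hv
  refine GM.desc_good (k := ℚ) (M := K) (w := v) (W := E ℚ) (u := (C.u : K)) (r := C.r)
    (s := C.s) (t := C.t) C.u.ne_zero ?_ ?_
  · intro σ hσ
    have h1 : σ = 1 := by
      by_contra hne
      obtain ⟨p, hp, h2, h3⟩ := inert_ram v hσ hne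
      exact GL.ram_bad hE v hp h2 h3 ⟨C, hC⟩
    rw [h1]
    exact ⟨rfl, rfl, rfl, rfl⟩
  · have e : (⟨Units.mk0 (C.u : K) C.u.ne_zero, C.r, C.s, C.t⟩ : VariableChange K) = C := by
      ext <;> rfl
    rw [Per.E_map, e]
    exact hC

end Pool.Agent.Lib.MP_1a91b9_nuX.LF
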