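import Pool.Agent.Lib.MP_1a91b9_nuX.LF.EulN
import Pool.Agent.Lib.MP_1a91b9_nuX.LF.LfC

/-!
# The L-series of the curve over the fields containing `K`, and of the curve and its twist over the others
-/

set_option autoImplicit false

namespace Pool.Agent.Lib.MP_1a91b9_nuX.LF

open NumberField IsDedekindDomain Polynomial WeierstrassCurve Filter Topology LSeries
  Pool.Agent.Lib.MP_1a91b9_nt Pool.Agent.Lib.MP_1a91b9_nuT Pool.Agent.Lib.MP_1a91b9_nuT.S7
open Pool.Agent.Lib.MP_1a91b9_nuT.S4 (Lf)
open Pool.Agent.Lib.MP_1a91b9_nuX.AN (psC psbC)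

universe u

variable [CD] [HC]

/-- the range `2 < Re s` -/
private theorem Ser_K2 {F : Type u} [Field F] [NumberField F] [Algebra K F] (h : Nice F)
    (W : WeierstrassCurve F) (C : VariableChange F) (hC : C • W = E F) (s : ℂ)
    (hs : 2 < s.re) : W.LSeries s = Lf (psC F) s * Lf (psbC F) s := by
  have hp := (S4.hasProd_Lf (psC F) (AN.psC_one F) (AN.psC_mul F) (1 / 2) (by norm_num)
    AN.norm_psC_le s (by linarith)).2
  have hq := (S4.hasProd_Lf (psbC F) (AN.psbC_one F) (AN.psbC_mul F) (1 / 2) (by norm_num)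
    AN.norm_psbC_le s (by linarith)).2
  have hpq := hp.mul hq
  have he := hasProd_fac W hs
  refine he.unique ?_
  have e : (fun w : HeightOneSpectrum (𝓞 F) => fac W w s) = fun w =>
      (1 - psC F w.asIdeal * (Ideal.absNorm w.asIdeal : ℂ) ^ (-s))⁻¹ *
      (1 - psbC F w.asIdeal * (Ideal.absNorm w.asIdeal : ℂ) ^ (-s))⁻¹ := by
    funext w
    rw [fac, nrm_eq, loc_all h w W C hC, mul_inv]
  rw [e]
  exact hpq

/-- the L-series over a field containing `K` -/
theorem LSeries_K {F : Type u} [Field F] [NumberField F] [Algebra K F] (h : Nice F)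
    (W : WeierstrassCurve F) (C : VariableChange F) (hC : C • W = E F) (s : ℂ)
    (hs : 3 / 2 < s.re) : W.LSeries s = Lf (psC F) s * Lf (psbC F) s := by
  have hp := hasSum_coefI_of_le (psC F) (AN.psC_one F) (AN.psC_mul F) AN.norm_psC_le
  have hq := hasSum_coefI_of_le (psbC F) (AN.psbC_one F) (AN.psbC_mul F) AN.norm_psbC_le
  have h1 := half_plane W (LSeries.convolution (coefI (psC F)) (coefI (psbC F)))
    (fun s hs => ((hp s hs).convolution (hq s hs)).LSeriesSummable)
    (fun s hs => by
      have hs' : 3 / 2 < s.re := by linarith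
      rw [Ser_K2 h W C hC s hs, ((hp s hs').convolution (hq s hs')).LSeries_eq]) s hs
  rw [h1.2, ((hp s hs).convolution (hq s hs)).LSeries_eq]

section
variable {N F : Type u} [Field N] [NumberField N] [Field F] [NumberField F] [Algebra N F]
  [Algebra K F] (hL : Module.finrank N F = 2)
  (hn : ∀ x : N, algebraMap N F x ≠ algebraMap K F om) (h : Nice F)
  (W : WeierstrassCurve N) (hW : (∃ C : VariableChange N, C • W = crv (cA N) (cB N)) ∨
    ∃ C : VariableChange N, C • W = crv ((tA : ℤ) : N) ((tB : ℤ) : N))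
include hL hn h hW

/-- the range `2 < Re s` -/
private theorem Ser_N2 (s : ℂ) (hs : 2 < s.re) : W.LSeries s = Lf (psbC F) s := by
  have h1 := (S4.hasProd_Lf (psbC F) (AN.psbC_one F) (AN.psbC_mul F) (1 / 2) (by norm_num)
    AN.norm_psbC_le s (by linarith)).2
  have h2 := S4.hasProd_over (F := N) (F' := F) _ _ h1
  have he := hasProd_fac W hs
  refine he.unique ?_
  have e : (fun v : HeightOneSpectrum (𝓞 N) => fac W v s) = fun v => ∏ w : S4.Over F v,
      (1 - psbC F w.1.asIdeal * (Ideal.absNorm w.1.asIdeal : ℂ) ^ (-s))⁻¹ :=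
    funext fun v => (euler_N hL hn h W hW v s).symm
  rw [e]
  exact h2

/-- the L-series over a field `N` which does not contain `K`, `F = N K` -/
theorem LSeries_N (s : ℂ) (hs : 3 / 2 < s.re) : W.LSeries s = Lf (psbC F) s := by
  have hq := hasSum_coefI_of_le (psbC F) (AN.psbC_one F) (AN.psbC_mul F) AN.norm_psbC_le
  have h1 := half_plane W (coefI (psbC F)) (fun s hs => (hq s hs).LSeriesSummable)
    (fun s hs => by
      rw [Ser_N2 hL hn h W hW s hs, (hq s (by linarith)).LSeries_eq]) s hs
  rw [h1.2, (hq s hs).LSeries_eq]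

end

end Pool.Agent.Lib.MP_1a91b9_nuX.LF
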