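import Pool.Agent.Lib.MP_1a91b9_nuX.GL.Loc
import Pool.Agent.Lib.MP_1a91b9_nuX.AN.Psi
import Pool.Agent.Lib.MP_1a91b9_nuT.BaseK

/-!
# The Hecke character of `F` at places which are conjugate over a subfield which does not contain `K`
-/

set_option autoImplicit false

namespace Pool.Agent.Lib.MP_1a91b9_nuX.LF

open NumberField IsDedekindDomain Pool.Agent.Lib.MP_1a91b9_nt
  Pool.Agent.Lib.MP_1a91b9_nuT
open Pool.Agent.Lib.MP_1a91b9_nuX.AN (psC psbC)
open scoped Pointwise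

variable [CD]

universe u

theorem mem_map_cj (I : Ideal (𝓞 K)) (x : 𝓞 K) : x ∈ I.map cj ↔ cj x ∈ I := by
  have h1 : I.map (cjE : 𝓞 K →+* 𝓞 K) = I.comap (cjE.symm : 𝓞 K →+* 𝓞 K) :=
    Ideal.map_comap_of_equiv cjE
  have h2 : (cjE : 𝓞 K →+* 𝓞 K) = cj := RingHom.ext fun _ => rfl
  have h3 : (cjE.symm : 𝓞 K →+* 𝓞 K) = cj := RingHom.ext fun _ => rfl
  rw [h2, h3] at h1
  rw [h1]
  exact Iff.rfl

section
variable {N F : Type u} [Field N] [NumberField N] [Field F] [NumberField F] [Algebra N F]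
  [Algebra K F]

/-- the action on the integers of `K` -/
theorem smul_cj {σ : Gal(F/N)} (hσ : σ (algebraMap K F om) = algebraMap K F ((CD.tr : K) - om))
    (x : 𝓞 K) : σ • (algebraMap (𝓞 K) (𝓞 F) x) = algebraMap (𝓞 K) (𝓞 F) (cj x) := by
  obtain ⟨m, n, rfl⟩ := exists_coords x
  apply RingOfIntegers.ext
  rw [cj_coords']
  have e1 : ∀ m n : ℤ, ((algebraMap (𝓞 K) (𝓞 F) ((m : 𝓞 K) + (n : 𝓞 K) * ta) : 𝓞 F) : F) =
      (m : F) + (n : F) * algebraMap K F om := by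
    intro m n
    change algebraMap K F (((m : 𝓞 K) + (n : 𝓞 K) * ta : 𝓞 K) : K) = _
    rw [coe_lin, map_add, map_mul, map_intCast, map_intCast]
  change σ ((algebraMap (𝓞 K) (𝓞 F) ((m : 𝓞 K) + (n : 𝓞 K) * ta) : 𝓞 F) : F) = _
  rw [e1, e1, map_add, map_mul, map_intCast, map_intCast, hσ, map_sub, map_intCast]
  push_cast
  ring

/-- the place of `K` below the conjugate place -/
theorem under_conj {σ : Gal(F/N)} (hσ : σ (algebraMap K F om) = algebraMap K F ((CD.tr : K) - om))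
    {w w' : HeightOneSpectrum (𝓞 F)} (hw : w'.asIdeal = σ • w.asIdeal) :
    (w'.under (𝓞 K)).asIdeal = (w.under (𝓞 K)).asIdeal.map cj := by
  ext x
  rw [mem_map_cj]
  have h4 : x ∈ (w'.under (𝓞 K)).asIdeal ↔ algebraMap (𝓞 K) (𝓞 F) x ∈ w'.asIdeal := Iff.rfl
  have h5 : cj x ∈ (w.under (𝓞 K)).asIdeal ↔ algebraMap (𝓞 K) (𝓞 F) (cj x) ∈ w.asIdeal := Iff.rfl
  rw [h4, h5, hw, Ideal.mem_pointwise_smul_iff_inv_smul_mem]
  have h6 : σ⁻¹ • (algebraMap (𝓞 K) (𝓞 F) x) = algebraMap (𝓞 K) (𝓞 F) (cj x) := by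
    rw [inv_smul_eq_iff, smul_cj hσ, cj_cj]
  rw [h6]

theorem absNorm_map_cj (I : Ideal (𝓞 K)) : Ideal.absNorm (I.map cj) = Ideal.absNorm I := by
  have h2 : (cjE : 𝓞 K →+* 𝓞 K) = cj := RingHom.ext fun _ => rfl
  rw [Ideal.absNorm_apply, Ideal.absNorm_apply, Submodule.cardQuot_apply,
    Submodule.cardQuot_apply]
  exact Nat.card_congr (Ideal.quotientEquiv I (I.map cj) cjE (by rw [h2])).symm.toEquiv

variable [HC]

theorem ps_ne {P : HeightOneSpectrum (𝓞 K)} : ps P.asIdeal ≠ 0 ↔ HC.f ∉ P.asIdeal := by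
  constructor
  · intro h hf
    apply h
    refine HC.hd.zero _ fun hc => ?_
    rw [Ideal.isCoprime_iff_sup_eq] at hc
    have h1 : P.asIdeal ⊔ Ideal.span {HC.f} ≤ P.asIdeal :=
      sup_le le_rfl ((Ideal.span_singleton_le_iff_mem _).mpr hf)
    rw [hc, top_le_iff] at h1
    exact P.isPrime.ne_top h1
  · intro h h0
    have h1 := ps_span' P h
    rw [h0, Ideal.span_singleton_eq_bot.2 rfl] at h1
    exact P.ne_bot h1.symm

/-- the conductor is invariant -/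
theorem f_conj {σ : Gal(F/N)} (hσ : σ (algebraMap K F om) = algebraMap K F ((CD.tr : K) - om))
    {w w' : HeightOneSpectrum (𝓞 F)} (hw : w'.asIdeal = σ • w.asIdeal) :
    HC.f ∈ (w'.under (𝓞 K)).asIdeal ↔ HC.f ∈ (w.under (𝓞 K)).asIdeal := by
  have h1 := GL.ps_conj (w.under (𝓞 K)).asIdeal
  rw [← under_conj hσ hw] at h1
  have h2 : ps (w'.under (𝓞 K)).asIdeal ≠ 0 ↔ ps (w.under (𝓞 K)).asIdeal ≠ 0 := by
    rw [h1]
    refine not_congr ⟨fun h => ?_, fun h => by rw [h, map_zero]⟩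
    rw [← cj_cj (ps (w.under (𝓞 K)).asIdeal), h, map_zero]
  rw [ps_ne, ps_ne] at h2
  exact not_iff_not.1 h2

/-- conjugation on places -/
theorem psi_conj {σ : Gal(F/N)} (hσ : σ (algebraMap K F om) = algebraMap K F ((CD.tr : K) - om))
    {w w' : HeightOneSpectrum (𝓞 F)} (hw : w'.asIdeal = σ • w.asIdeal)
    (hn : Ideal.absNorm w'.asIdeal = Ideal.absNorm w.asIdeal) :
    psi F w'.asIdeal = cj (psi F w.asIdeal) := by
  have hmap := under_conj hσ hw
  have hPm : (w.under (𝓞 K)).asIdeal.IsMaximal := (w.under (𝓞 K)).isMaximal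
  have hPm' : (w'.under (𝓞 K)).asIdeal.IsMaximal := (w'.under (𝓞 K)).isMaximal
  have hlo : w.asIdeal.LiesOver (w.under (𝓞 K)).asIdeal := ⟨rfl⟩
  have hlo' : w'.asIdeal.LiesOver (w'.under (𝓞 K)).asIdeal := ⟨rfl⟩
  have hvmax : w.asIdeal.IsMaximal := w.isMaximal
  have hvmax' : w'.asIdeal.IsMaximal := w'.isMaximal
  have hf : w'.asIdeal.inertiaDeg (𝓞 K) = w.asIdeal.inertiaDeg (𝓞 K) := by
    have e1 := Ideal.absNorm_pow_inertiaDeg (w.under (𝓞 K)).asIdeal w.asIdeal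
    have e2 := Ideal.absNorm_pow_inertiaDeg (w'.under (𝓞 K)).asIdeal w'.asIdeal
    rw [hmap, absNorm_map_cj, hn, ← e1] at e2
    have hP2 : 2 ≤ Ideal.absNorm (w.under (𝓞 K)).asIdeal := by
      have h0 : Ideal.absNorm (w.under (𝓞 K)).asIdeal ≠ 0 :=
        Ideal.absNorm_ne_zero_iff_mem_nonZeroDivisors.mpr
          (mem_nonZeroDivisors_iff_ne_zero.mpr (w.under (𝓞 K)).ne_bot)
      have h1 : Ideal.absNorm (w.under (𝓞 K)).asIdeal ≠ 1 := by
        rw [Ne, Ideal.absNorm_eq_one_iff]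
        exact hPm.ne_top
      omega
    exact Nat.pow_right_injective hP2 e2
  rw [psi_pow, psi_pow, hf, hmap, GL.ps_conj, map_pow]

/-- the complex form -/
theorem psC_conj {σ : Gal(F/N)} (hσ : σ (algebraMap K F om) = algebraMap K F ((CD.tr : K) - om))
    {w w' : HeightOneSpectrum (𝓞 F)} (hw : w'.asIdeal = σ • w.asIdeal)
    (hn : Ideal.absNorm w'.asIdeal = Ideal.absNorm w.asIdeal) :
    psC F w'.asIdeal = psbC F w.asIdeal := by
  rw [psbC, psC, psC, psi_conj hσ hw hn, emb_cj]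

end

end Pool.Agent.Lib.MP_1a91b9_nuX.LF
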