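import Pool.Agent.Lib.MP_1a91b9_nuX.GM.Nos

/-!
# Inertia groups in towers

`good_up`: good reduction goes up. `fix_all`: `k ⊂ L ⊂ M`, `M / k` Galois, `w` a place of `M`, `S` a stable subset of `M`. If the inertia elements of `M / L` fix the elements of `S` and the `m`-th powers of the
inertia elements of `M / k` also, and the ramification index of `w` restricted to `L` over `k` is prime to `m`, then the inertia elements of `M / k` fix `S`.
PROOF. `J ≤ H ≤ I`: the inertia of `M / L`, the inertia elements of `M / k` which fix `S`, the inertia of `M / k`. `|I| = e |J|`, so the index of `H` in `I` divides `e`; `H` is normal in `I` and `I / H` has exponent dividing `m`.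
-/

set_option autoImplicit false

namespace Pool.Agent.Lib.MP_1a91b9_nuX.LF

open NumberField IsDedekindDomain WeierstrassCurve

/-- good reduction goes up -/
theorem good_up {k M : Type*} [Field k] [NumberField k] [Field M] [NumberField M] [Algebra k M]
    (W : WeierstrassCurve k) (w : HeightOneSpectrum (𝓞 M))
    (h : ∃ C : VariableChange k, GM.GoodW ((w.under (𝓞 k)).valuation k) (C • W)) :
    ∃ C : VariableChange M, GM.GoodW (w.valuation M) (C • W.map (algebraMap k M)) := by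
  classical
  obtain ⟨C, hC⟩ := h
  refine ⟨C.map (algebraMap k M), ?_⟩
  rw [WeierstrassCurve.map_variableChange]
  exact GM.good_map (GM.val_under w) hC

/-- the group theory -/
theorem grp_le {G : Type*} [Group G] [Finite G] {I H J : Subgroup G} (hJH : J ≤ H) (hHI : H ≤ I)
    (hn : ∀ g ∈ I, ∀ h ∈ H, g * h * g⁻¹ ∈ H) {e m : ℕ} (hc : Nat.card I = e * Nat.card J)
    (hcop : e.Coprime m) (hm : ∀ g ∈ I, g ^ m ∈ H) : I ≤ H := by
  rw [← Subgroup.relIndex_eq_one]
  by_contra hr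
  obtain ⟨p, hp, hpr⟩ := Nat.exists_prime_and_dvd hr
  have h1 : H.relIndex I * Nat.card H = Nat.card I := by
    have h2 := Subgroup.relIndex_mul_relIndex (⊥ : Subgroup G) H I bot_le hHI
    rw [Subgroup.relIndex_bot_left, Subgroup.relIndex_bot_left] at h2
    rw [mul_comm]
    exact h2
  obtain ⟨t, ht⟩ := Subgroup.card_dvd_of_le hJH
  have hJ : 0 < Nat.card J := Nat.card_pos
  have h3 : H.relIndex I * t = e := by
    have h4 : (H.relIndex I * t) * Nat.card J = e * Nat.card J := by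
      rw [← hc, ← h1, ht]
      ring
    exact Nat.eq_of_mul_eq_mul_right hJ h4
  have hpe : p ∣ e := by
    rw [← h3]
    exact hpr.mul_right _
  have hN : (H.subgroupOf I).Normal := by
    refine ⟨fun h hh g => ?_⟩
    rw [Subgroup.mem_subgroupOf] at hh ⊢
    exact hn g g.2 h hh
  have hpq : p ∣ Nat.card (I ⧸ H.subgroupOf I) := by
    have h5 : H.relIndex I = Nat.card (I ⧸ H.subgroupOf I) := rfl
    rw [← h5]
    exact hpr
  have hpf : Fact p.Prime := ⟨hp⟩
  obtain ⟨q, hq⟩ := exists_prime_orderOf_dvd_card' (G := I ⧸ H.subgroupOf I) p hpq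
  obtain ⟨g, rfl⟩ := QuotientGroup.mk_surjective q
  have h6 : (QuotientGroup.mk g : I ⧸ H.subgroupOf I) ^ m = 1 := by
    rw [← QuotientGroup.mk_pow, QuotientGroup.eq_one_iff, Subgroup.mem_subgroupOf]
    exact hm g g.2
  have h7 : p ∣ m := by
    rw [← hq]
    exact orderOf_dvd_of_pow_eq_one h6
  exact hp.one_lt.ne' (Nat.eq_one_of_dvd_coprimes hcop hpe h7)

section
variable {k M : Type*} [Field k] [NumberField k] [Field M] [NumberField M] [Algebra k M]

theorem card_inertia [IsGalois k M] (w : HeightOneSpectrum (𝓞 M)) :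
    Nat.card (w.asIdeal.inertia Gal(M/k)) = w.asIdeal.ramificationIdx (𝓞 k) := by
  have hp : w.asIdeal.IsPrime := w.isPrime
  have hfin1 : Finite (𝓞 k ⧸ w.asIdeal.under (𝓞 k)) :=
    Ideal.finiteQuotientOfFreeOfNeBot _ (w.under (𝓞 k)).ne_bot
  have h1 := Ideal.card_inertia_eq_ramificationIdxIn (G := Gal(M/k)) (w.asIdeal.under (𝓞 k))
    w.asIdeal
  rw [Ideal.ramificationIdxIn_eq_ramificationIdx _ w.asIdeal Gal(M/k)] at h1
  exact h1

variable {L : Type*} [Field L] [NumberField L] [Algebra k L] [Algebra L M] [IsScalarTower k L M]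

theorem fix_all [IsGalois k M] {w : HeightOneSpectrum (𝓞 M)} {S : Set M}
    (hS : ∀ σ : Gal(M/k), ∀ x ∈ S, σ x ∈ S) {m : ℕ}
    (hcop : ((w.under (𝓞 L)).asIdeal.ramificationIdx (𝓞 k)).Coprime m)
    (h1 : ∀ σ : Gal(M/L), (∀ y : 𝓞 M, σ • y - y ∈ w.asIdeal) → ∀ x ∈ S, σ x = x)
    (h2 : ∀ σ : Gal(M/k), (∀ y : 𝓞 M, σ • y - y ∈ w.asIdeal) → ∀ x ∈ S, (σ ^ m) x = x)
    (σ : Gal(M/k)) (hσ : ∀ y : 𝓞 M, σ • y - y ∈ w.asIdeal) (x : M) (hx : x ∈ S) : σ x = x := by
  have gL : IsGalois L M := IsGalois.tower_top_of_isGalois k L M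
  obtain ⟨I, hI⟩ : ∃ I, I = w.asIdeal.inertia Gal(M/k) := ⟨_, rfl⟩
  have memI : ∀ g : Gal(M/k), g ∈ I ↔ ∀ y : 𝓞 M, g • y - y ∈ w.asIdeal := by
    intro g
    rw [hI]
    exact Iff.rfl
  obtain ⟨ρ, hρ⟩ : ∃ ρ : Gal(M/L) →* Gal(M/k), ∀ (g : Gal(M/L)) (x : M), ρ g x = g x :=
    ⟨⟨⟨fun g => g.restrictScalars k, rfl⟩, fun _ _ => rfl⟩, fun _ _ => rfl⟩
  have hρi : Function.Injective ρ := by
    intro g g' h
    ext x
    rw [← hρ, ← hρ, h]
  obtain ⟨J, hJ⟩ : ∃ J, J = (w.asIdeal.inertia Gal(M/L)).map ρ := ⟨_, rfl⟩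
  obtain ⟨H, hH⟩ : ∃ H : Subgroup Gal(M/k), ∀ g, g ∈ H ↔ g ∈ I ∧ ∀ x ∈ S, g x = x := by
    refine ⟨{ carrier := {g | g ∈ I ∧ ∀ x ∈ S, g x = x}
              mul_mem' := ?_
              one_mem' := ⟨I.one_mem, fun x _ => rfl⟩
              inv_mem' := ?_ }, fun g => Iff.rfl⟩
    · intro a b ha hb
      refine ⟨I.mul_mem ha.1 hb.1, fun x hx => ?_⟩
      rw [AlgEquiv.mul_apply, hb.2 x hx, ha.2 x hx]
    · intro a ha
      refine ⟨I.inv_mem ha.1, fun x hx => ?_⟩
      conv_lhs => rw [← ha.2 x hx]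
      exact AlgEquiv.symm_apply_apply a x
  have hle : I ≤ H := by
    refine grp_le (J := J) ?_ ?_ ?_ (e := (w.under (𝓞 L)).asIdeal.ramificationIdx (𝓞 k)) ?_ hcop ?_
    · intro g hg
      rw [hJ] at hg
      obtain ⟨g', hg', rfl⟩ := hg
      rw [hH]
      refine ⟨?_, fun x hx => ?_⟩
      · rw [memI]
        intro y
        have e : ρ g' • y = g' • y := RingOfIntegers.ext (hρ g' (y : M))
        rw [e]
        exact hg' y
      · rw [hρ]
        exact h1 g' (fun y => hg' y) x hx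
    · intro g hg
      exact ((hH g).1 hg).1
    · intro g hg h hh
      rw [hH] at hh ⊢
      refine ⟨I.mul_mem (I.mul_mem hg hh.1) (I.inv_mem hg), fun x hx => ?_⟩
      rw [AlgEquiv.mul_apply, AlgEquiv.mul_apply, hh.2 _ (hS _ _ hx)]
      exact AlgEquiv.apply_symm_apply g x
    · have h5 := Ideal.ramificationIdx_tower (R := 𝓞 k) (w.asIdeal.under (𝓞 L)) w.asIdeal
      rw [← card_inertia (k := k) w, ← card_inertia (k := L) w] at h5
      have hc : Nat.card J = Nat.card (w.asIdeal.inertia Gal(M/L)) := by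
        rw [hJ]
        exact Subgroup.card_map_of_injective hρi
      rw [hI, hc]
      exact h5
    · intro g hg
      rw [hH]
      exact ⟨I.pow_mem hg m, h2 g ((memI g).1 hg)⟩
  exact ((hH σ).1 (hle ((memI σ).2 hσ))).2 x hx

end

end Pool.Agent.Lib.MP_1a91b9_nuX.LF
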