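import Pool.Agent.Lib.MP_1a91b9_nuX.LF.NiceB
import Pool.Agent.Lib.MP_1a91b9_nuX.GL.InA
import Pool.Agent.Lib.MP_1a91b9_nuX.GL.AbsL

/-!
# The inertia automorphisms of a Galois extension act on the torsion through units
-/

set_option autoImplicit false

namespace Pool.Agent.Lib.MP_1a91b9_nuX.LF

open NumberField IsDedekindDomain WeierstrassCurve Pool.Agent.Lib.MP_1a91b9_nuT DB

universe u

variable [CD]

open Pool.Agent.Lib.MP_1a91b9_nuX.GL in
/-- the `m`-th powers of the inertia automorphisms act trivially on the torsion -/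
def InEx (m : ℕ) : Prop := ∀ [DecidableEq Kb] (P : HeightOneSpectrum (𝓞 K)) (V : ValuationSubring Kb),
  Abv P V → ∀ σ : Kb ≃ₐ[K] Kb, IsFr V 1 σ → ∀ T : Pt Kb, Tr V.valuation T →
    ga (σ ^ m) T = T

open Pool.Agent.Lib.MP_1a91b9_nuX.GL in
theorem inEx_ww (hE : GL.EllK) : InEx (ww ^ 2) := by
  intro _ P V hV σ hσ T hT
  obtain ⟨ζ, hζ⟩ := in_unit' hV hE hσ
  have hpow : ∀ j : ℕ, ga (σ ^ j) T = sm Kb ((ζ : 𝓞 K) ^ j) T := by
    intro j
    induction j with
    | zero => rw [pow_zero, pow_zero, gk_one, sm_one]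
    | succ j ih => rw [pow_succ, gk_mul, hζ _ hT, gk_sm, ih, pow_succ, mul_comm, sm_mul]
  rw [hpow, unit_pow, sm_one]

open Pool.Agent.Lib.MP_1a91b9_nuX.GL in
theorem inEx_48 : InEx 48 := by
  intro _ P V hV σ hσ T hT
  have hpow : ∀ j : ℕ, ga (σ ^ j) T = (ga σ : Pt Kb →+ Pt Kb)^[j] T := by
    intro j
    induction j with
    | zero => rw [pow_zero, gk_one]; rfl
    | succ j ih => rw [pow_succ', gk_mul, ih, Function.iterate_succ_apply']
  rw [hpow, in_exp hV hσ hT]

open Pool.Agent.Lib.MP_1a91b9_nuX.GL in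
/-- The `m`-th powers of the inertia automorphisms act trivially on the torsion. -/
theorem inert_pow {m : ℕ} (hm : InEx m) {N M : Type*} [Field N] [NumberField N] [Field M]
    [NumberField M] [Algebra K N] [Algebra K M] [Algebra N M] [IsScalarTower K N M] [IsGalois N M]
    [DecidableEq M] {w : HeightOneSpectrum (𝓞 M)} {σ : Gal(M/N)}
    (hσ : ∀ y : 𝓞 M, σ • y - y ∈ w.asIdeal) {T : Pt M} {n : ℕ}
    (hn : w.valuation M (n : M) = 1) (h : n • T = 0) :
    (σ ^ m) (xc T) = xc T ∧ (σ ^ m) (yc T) = yc T := by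
  classical
  have fK : FiniteDimensional K M := Module.Finite.of_restrictScalars_finite ℚ K M
  have aM : Algebra.IsAlgebraic K M := Algebra.IsAlgebraic.of_finite K M
  let f : M →ₐ[K] Kb := IsAlgClosed.lift
  let algM : Algebra M Kb := f.toRingHom.toAlgebra
  let algN : Algebra N Kb := (f.toRingHom.comp (algebraMap N M)).toAlgebra
  have tM : IsScalarTower K M Kb := IsScalarTower.of_algebraMap_eq fun x => (f.commutes x).symm
  have tNM : IsScalarTower N M Kb := IsScalarTower.of_algebraMap_eq fun x => rfl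
  have tN : IsScalarTower K N Kb := by
    refine IsScalarTower.of_algebraMap_eq fun x => ?_
    rw [IsScalarTower.algebraMap_apply K M Kb, IsScalarTower.algebraMap_apply K N M,
      ← IsScalarTower.algebraMap_apply N M Kb]
  have aN : Algebra.IsAlgebraic N Kb := Algebra.IsAlgebraic.tower_top (K := K) N
  obtain ⟨V, hV⟩ := exists_abv (k := M) (Ω := Kb) w
  obtain ⟨τ, hτ, hτM⟩ := in_lift (k := N) (Ω := Kb) hV hσ
  have hVK : Abv (w.under (𝓞 K)) V := abv_res (k := K) hV
  obtain ⟨τ', hτ'⟩ : ∃ τ' : Kb ≃ₐ[K] Kb, ∀ x, τ' x = τ x := ⟨τ.restrictScalars K, fun x => rfl⟩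
  have hfr : IsFr V 1 τ' := by
    intro x hx
    rw [hτ']
    exact hτ x hx
  have hTr : Tr V.valuation (pm f T) := by
    refine ⟨n, ?_, ?_⟩
    · have h1 := (abv_eq hV (n : M)).2 hn
      rwa [map_natCast] at h1
    · rw [← map_nsmul, h, map_zero]
  have hfix := hm _ V hVK τ' hfr _ hTr
  have hτj : ∀ (j : ℕ) (x : M), (τ' ^ j) (f x) = f ((σ ^ j) x) := by
    intro j
    induction j with
    | zero => intro x; rfl
    | succ j ih =>
      intro x
      rw [pow_succ', pow_succ', AlgEquiv.mul_apply, AlgEquiv.mul_apply, ih, hτ']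
      exact hτM _
  have hx := congrArg xc hfix
  have hy := congrArg yc hfix
  rw [xc_gk, xc_pm, hτj] at hx
  rw [yc_gk, yc_pm, hτj] at hy
  exact ⟨f.injective hx, f.injective hy⟩

end Pool.Agent.Lib.MP_1a91b9_nuX.LF
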